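import Pool.Agent.H56.END.Loc
import Pool.Agent.H31.UDC.Cdx

/-!
# ROB => DIM, END, local form: the dichotomy

`mns_om`: the limit sets of the Julia critical points are minimal pieces (`DEC`). `ac_dec`: if all of them are asymptotically connected then
`KK` is. `DDl`: the local dichotomy. `LOCf`: THEOREM LOC for the families (Julia set not the sphere), `ddl_fam`.
-/

set_option autoImplicit false

open Filter Topology Metric Set

namespace Pool.Agent.H56.END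

open Pool.Agent.H56.HR (FS EqAt)
open Pool.Agent.H32.BT Pool.Agent.H35.EX Pool.Agent.H44.RC Pool.Agent.H44.RR
open Pool.Agent.H79.Eul Pool.Agent.H79.Par
open Pool.Agent.H64.JS (KJ)
open Pool.Agent.H64.TP (KK)
open Pool.Agent.H83.BE (UPd)
open Pool.Agent.H21.AS (CluS ACs not_ac up_ac dims_ac)
open Pool.Agent.H39.EMB (DEC MinSet)
open Pool.Agent.H27.BR (CD)
open Pool.Agent.H57.CF Pool.Agent.H47.NM

theorem mns_om {f : OnePoint ℂ → OnePoint ℂ} (hfin : {c | IsCrit f c}.Finite) (h : DEC f) {c : OnePoint ℂ}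
    (hc : IsCrit f c) (hcJ : c ∈ JS f) : MnS f (KK f) (Om f c) := by
  have hM := h.min c hc hcJ
  have hsub : ∀ c', IsCrit f c' → c' ∈ JS f → Om f c' ⊆ KK f := by
    intro c' h1 h2 y hy
    show y ∈ KJ {c | IsCrit f c} (JS f) f
    rw [h.dec]
    exact mem_biUnion (x := c') ⟨h1, h2⟩ hy
  have hin : ∀ y ∈ KK f, ∃ c', IsCrit f c' ∧ c' ∈ JS f ∧ y ∈ Om f c' := by
    intro y hy
    have h1 : y ∈ KJ {c | IsCrit f c} (JS f) f := hy
    rw [h.dec] at h1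
    obtain ⟨c', h2, h3⟩ := mem_iUnion₂.1 h1
    exact ⟨c', h2.1, h2.2, h3⟩
  refine ⟨hM.cl, hM.ne, hsub c hc hcJ, hM.inv, hM.min, ?_, ?_⟩
  · have h1 : KK f \ Om f c = ⋃ c' ∈ {c' | IsCrit f c' ∧ c' ∈ JS f ∧ Om f c' ≠ Om f c}, Om f c' := by
      ext y
      constructor
      · rintro ⟨h2, h3⟩
        obtain ⟨c', h4, h5, h6⟩ := hin y h2
        refine mem_biUnion (x := c') ⟨h4, h5, fun h7 => h3 (h7 ▸ h6)⟩ h6
      · intro h2
        obtain ⟨c', ⟨h3, h4, h5⟩, h6⟩ := mem_iUnion₂.1 h2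
        refine ⟨hsub c' h3 h4 h6, fun h7 => ?_⟩
        rcases h.eqd c' c h3 h4 hc hcJ with h8 | h8
        · exact h5 h8
        · exact disjoint_left.1 h8 h6 h7
    rw [h1]
    exact (hfin.subset fun c' h2 => h2.1).isClosed_biUnion fun c' h2 => (h.min c' h2.1 h2.2.1).cl
  · intro y hy hyc hfy
    obtain ⟨c', h4, h5, h6⟩ := hin y hy
    rcases h.eqd c' c h4 h5 hc hcJ with h8 | h8
    · exact hyc (h8 ▸ h6)
    · exact disjoint_left.1 h8 ((h.min c' h4 h5).inv y h6) hfy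

theorem ac_dec {f : OnePoint ℂ → OnePoint ℂ} (hfin : {c | IsCrit f c}.Finite) (h : DEC f)
    (hA : ∀ S, MnS f (KK f) S → (∃ c ∈ S, IsCrit f c) → ACs S) : ACs (KK f) := by
  intro ε hε
  have key : ∀ᶠ r : ℝ in 𝓝[>] 0, ∀ c ∈ {c | IsCrit f c ∧ c ∈ JS f},
      (∀ A : Set (OnePoint ℂ), ¬ CluS (Om f c) ε r A) ∧ ∀ x ∈ Om f c, ∀ y ∈ KK f, y ∉ Om f c → r < chord x y := by
    refine (Filter.eventually_all_finite (hfin.subset fun c hc => hc.1)).2 fun c hc => ?_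
    have hM := mns_om hfin h hc.1 hc.2
    obtain ⟨r0, hr0, h1⟩ := hA _ hM ⟨c, h.own c hc.1 hc.2, hc.1⟩ ε hε
    obtain ⟨s0, hs0, hs1⟩ := Pool.Agent.H64.NC.ch_sep hM.cl hM.off (disjoint_left.2 fun x hx hx' => hx'.2 hx)
    filter_upwards [Ioo_mem_nhdsGT (lt_min hr0 hs0)] with r hr
    exact ⟨h1 r hr.1 (hr.2.trans_le (min_le_left _ _)), fun x hx y hy hyc =>
      (hr.2.trans_le (min_le_right _ _)).trans_le (hs1 x hx y ⟨hy, hyc⟩)⟩
  obtain ⟨r0, hr0, h0⟩ := mem_nhdsGT_iff_exists_Ioo_subset.1 key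
  refine ⟨r0, hr0, fun r hr hrr A hC => ?_⟩
  have h2 := h0 ⟨hr, hrr⟩
  obtain ⟨⟨a, ha⟩, hAK, hAd, hAs⟩ := hC
  have h3 : a ∈ KJ {c | IsCrit f c} (JS f) f := hAK ha
  rw [h.dec] at h3
  obtain ⟨c, hc, hac⟩ := mem_iUnion₂.1 h3
  obtain ⟨h4, h5⟩ := h2 c hc
  have hAc : A ⊆ Om f c := by
    intro b hb
    by_contra hbc
    have h6 := h5 a hac b (hAK hb) hbc
    have h7 := hAd a ha b hb
    linarith
  have hsub : Om f c ⊆ KK f := (mns_om hfin h hc.1 hc.2).sub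
  exact h4 A ⟨⟨a, ha⟩, hAc, hAd, fun x hx y hy hyA => hAs x hx y (hsub hy) hyA⟩

/-- the local dichotomy: `K` contains a preconnected set with two points or is asymptotically connected, meets all rings at small
scales and has locally dimension at least one -/
def DDl (K : Set (OnePoint ℂ)) : Prop :=
  (∃ A ⊆ K, IsPreconnected A ∧ A.Nontrivial) ∨ (ACs K ∧ (∀ κ : ℝ, 0 < κ → κ < 1 → UPd κ K) ∧
    ∀ U : Set (OnePoint ℂ), IsOpen U → (K ∩ U).Nonempty → 1 ≤ dimH {z : ℂ | (z : OnePoint ℂ) ∈ K ∩ U})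

theorem ddl_of {K : Set (OnePoint ℂ)} (hK : IsClosed K) (h : IsTotallyDisconnected K → ACs K) : DDl K := by
  by_cases htd : IsTotallyDisconnected K
  · right
    have h3 := h htd
    exact ⟨h3, fun κ h4 h5 => up_ac h3 h4 h5, fun U hU hne => dims_ac hK h3 hU hne⟩
  · left
    unfold IsTotallyDisconnected at htd
    push Not at htd
    obtain ⟨A, hA, h1, h2⟩ := htd
    exact ⟨A, hA, h1, h2⟩

theorem dim_ddl {K : Set (OnePoint ℂ)} (hK : K.Nonempty) (h : DDl K) :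
    1 ≤ dimH {z : ℂ | (z : OnePoint ℂ) ∈ K} := by
  rcases h with ⟨A, hA, h1, h2⟩ | ⟨-, -, h2⟩
  · exact Pool.Agent.H78.END.con_dim h1 hA h2
  · refine (h2 univ isOpen_univ (by rw [inter_univ]; exact hK)).trans (dimH_mono ?_)
    rintro z ⟨hz, -⟩
    exact hz

/-- THEOREM LOC, Julia set not the sphere, all families -/
def LOCf : Prop := ∀ {d m : ℕ}, 2 ≤ d → m ≤ d → ∀ {x : Em d m}, IsCoprime (pol x.1) (pol x.2) →
  max (pol x.1).natDegree (pol x.2).natDegree = d → ¬ UpF d m x → (FS (Rf (ex d m x))).Nonempty →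
    ∃ (D : ℕ) (u : E d) (φ : OnePoint ℂ ≃ₜ OnePoint ℂ) (K : ℝ) (T : Set (OnePoint ℂ)), CD (ex d m x) u φ K T D ∧ FXl u

theorem acl_fam (hR : ROBm) (hL : LOCf) {d m : ℕ} (hd : 2 ≤ d) (hm : m ≤ d) {x : Em d m} (hcop : IsCoprime (pol x.1) (pol x.2))
    (hdeg : max (pol x.1).natDegree (pol x.2).natDegree = d) (hup : ¬ UpF d m x)
    (hF : (FS (Rf (ex d m x))).Nonempty) (htd : IsTotallyDisconnected (KK (Rf (ex d m x)))) :
    ACs (KK (Rf (ex d m x))) := by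
  obtain ⟨D, u, φ, K, T, h1, h2⟩ := hL hd hm hcop hdeg hup hF
  obtain ⟨κ, h0, -, -, hb⟩ := Pool.Agent.H64.BE.beau (d := d) hd
  have hJ : JS (Rf (ex d m x)) ≠ univ := by
    intro h3
    obtain ⟨y, hy⟩ := hF
    have h4 : y ∈ JS (Rf (ex d m x)) := h3 ▸ mem_univ y
    exact h4 hy
  have hD := Pool.Agent.H39.EMB.dec_all hd hm hcop hdeg hup hJ htd
  have hcop' := ex_cop hcop
  have hfin : {c | IsCrit (Rf (ex d m x)) c}.Finite := crit_finite hcop' (by rw [ex_deg hdeg]; omega)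
  refine ac_dec hfin hD fun S hS hc => ?_
  obtain ⟨c, hcS, hc⟩ := hc
  exact end_loc hR h1 h2 htd hS hcS hc hD.own ⟨κ, h0, hb m hm x hcop hdeg hup⟩ hcop'

theorem ddl_fam (hR : ROBm) (hL : LOCf) {d m : ℕ} (hd : 2 ≤ d) (hm : m ≤ d) {x : Em d m} (hcop : IsCoprime (pol x.1) (pol x.2))
    (hdeg : max (pol x.1).natDegree (pol x.2).natDegree = d) (hup : ¬ UpF d m x)
    (hF : (FS (Rf (ex d m x))).Nonempty) : DDl (KK (Rf (ex d m x))) :=
  ddl_of isClosed_closure (acl_fam hR hL hd hm hcop hdeg hup hF)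

end Pool.Agent.H56.END
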