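import Pool.Agent.H56.END.Dec
import Pool.Agent.H64.BE.FB5
import Pool.Agent.H78.END.ConD

/-!
# ROB => DIM, END: the families

`pc_fam`: for a map of the family which is not a limit of maps with more attracted critical points, whose Julia set is not the sphere
and contains a critical point: if `KK` is totally disconnected then a minimal piece of `KK` is asymptotically connected (`ROBm` is
a hypothesis). `DD`: the dichotomy, `dd_fam`, `dim_dd`: the dimension of `KK` is at least one.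
-/

set_option autoImplicit false

open Filter Topology Polynomial Metric Set MeasureTheory

namespace Pool.Agent.H56.END

open Pool.Agent.H44.Fatou (rat rat_continuous rat_coe rat_coe_of_ne pt crit_coe)
open Pool.Agent.H56.HR (FS EqAt)
open Pool.Agent.H32.BT Pool.Agent.H79.Eul Pool.Agent.H79.Par
open Pool.Agent.H35.EX Pool.Agent.H44.RR Pool.Agent.H44.RC Pool.Agent.H47.RJ
open Pool.Agent.H47.NN Pool.Agent.H44.ND Pool.Agent.H79.ES Pool.Agent.H44.TH
open Pool.Agent.H64.NC Pool.Agent.H61.TT Pool.Agent.H57.CP Pool.Agent.H3.NC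
open Pool.Agent.H64.JS (KJ kj_inv kj_sub)
open Pool.Agent.H31.UDC (FXc cdx)
open Pool.Agent.H64.TP (KK)
open Pool.Agent.H83.BE (UPd)
open Pool.Agent.H21.AS (CluS ACs not_ac up_ac dims_ac)
open Pool.Agent.H57.CF Pool.Agent.H47.NM

variable {d : ℕ}

theorem pc_fam (hR : ROBm) {m : ℕ} (hd : 2 ≤ d) (hm : m ≤ d) {x : Em d m} (hcop : IsCoprime (pol x.1) (pol x.2))
    (hdeg : max (pol x.1).natDegree (pol x.2).natDegree = d) (hup : ¬ UpF d m x)
    (hF : (FS (Rf (ex d m x))).Nonempty) {c : OnePoint ℂ} (hc : IsCrit (Rf (ex d m x)) c)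
    (hcJ : c ∈ JS (Rf (ex d m x))) (htd : IsTotallyDisconnected (KK (Rf (ex d m x)))) :
    ∃ M, MnS (Rf (ex d m x)) (KK (Rf (ex d m x))) M ∧ (∃ c ∈ M, IsCrit (Rf (ex d m x)) c) ∧ ACs M := by
  obtain ⟨D, u, φ, K, T, h1, h2⟩ := cdx hd hm hcop hdeg hup hF
  obtain ⟨κ, h0, -, -, hb⟩ := Pool.Agent.H64.BE.beau (d := d) hd
  have hJ : JS (Rf (ex d m x)) ≠ univ := by
    intro h3
    obtain ⟨y, hy⟩ := hF
    have h4 : y ∈ JS (Rf (ex d m x)) := h3 ▸ mem_univ y
    exact h4 hy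
  have hD := Pool.Agent.H39.EMB.dec_all hd hm hcop hdeg hup hJ htd
  have hcop' := ex_cop hcop
  have hfin : {c | IsCrit (Rf (ex d m x)) c}.Finite := crit_finite hcop' (by rw [ex_deg hdeg]; omega)
  exact end_cdm hR h1 h2 hc hcJ htd (emb_dec hfin hD) hD.own ⟨κ, h0, hb m hm x hcop hdeg hup⟩ hcop'

/-- `K` contains a preconnected set with two points or a minimal piece which is asymptotically connected, meets all rings at
small scales and has locally dimension at least one -/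
def DD (f : OnePoint ℂ → OnePoint ℂ) (K : Set (OnePoint ℂ)) : Prop :=
  (∃ A ⊆ K, IsPreconnected A ∧ A.Nontrivial) ∨ ∃ M, MnS f K M ∧ (∃ c ∈ M, IsCrit f c) ∧ ACs M ∧
    (∀ κ : ℝ, 0 < κ → κ < 1 → UPd κ M) ∧
      ∀ U : Set (OnePoint ℂ), IsOpen U → (M ∩ U).Nonempty → 1 ≤ dimH {z : ℂ | (z : OnePoint ℂ) ∈ M ∩ U}

theorem dd_of_td {f : OnePoint ℂ → OnePoint ℂ} {K : Set (OnePoint ℂ)}
    (h : IsTotallyDisconnected K → ∃ M, MnS f K M ∧ (∃ c ∈ M, IsCrit f c) ∧ ACs M) : DD f K := by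
  by_cases htd : IsTotallyDisconnected K
  · right
    obtain ⟨M, h1, h2, h3⟩ := h htd
    exact ⟨M, h1, h2, h3, fun κ h4 h5 => up_ac h3 h4 h5, fun U hU hne => dims_ac h1.cl h3 hU hne⟩
  · left
    unfold IsTotallyDisconnected at htd
    push Not at htd
    obtain ⟨A, hA, h1, h2⟩ := htd
    exact ⟨A, hA, h1, h2⟩

theorem dd_fam (hR : ROBm) {m : ℕ} (hd : 2 ≤ d) (hm : m ≤ d) {x : Em d m} (hcop : IsCoprime (pol x.1) (pol x.2))
    (hdeg : max (pol x.1).natDegree (pol x.2).natDegree = d) (hup : ¬ UpF d m x)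
    (hF : (FS (Rf (ex d m x))).Nonempty) {c : OnePoint ℂ} (hc : IsCrit (Rf (ex d m x)) c)
    (hcJ : c ∈ JS (Rf (ex d m x))) :
    DD (Rf (ex d m x)) (KK (Rf (ex d m x))) :=
  dd_of_td fun htd => pc_fam hR hd hm hcop hdeg hup hF hc hcJ htd

/-- with one critical point in the Julia set the piece is everything -/
theorem one_of {f : OnePoint ℂ → OnePoint ℂ} {M : Set (OnePoint ℂ)} (h : MnS f (KK f) M) (hc : ∃ c ∈ M, IsCrit f c)
    (hJi : ∀ x ∈ JS f, f x ∈ JS f) (h1 : {c | IsCrit f c ∧ c ∈ JS f}.Subsingleton) : M = KK f := by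
  obtain ⟨c, hcM, hc⟩ := hc
  have hcJ : c ∈ JS f := kj_sub (js_closed f) hJi (h.sub hcM)
  refine h.sub.antisymm ?_
  refine closure_minimal ?_ h.cl
  rintro y ⟨c', hc', hcJ', n, -, rfl⟩
  have h2 : c' = c := h1 ⟨hc', hcJ'⟩ ⟨hc, hcJ⟩
  rw [h2]
  have h3 : ∀ n : ℕ, f^[n] c ∈ M := by
    intro n
    induction n with
    | zero => exact hcM
    | succ n ih =>
      rw [Function.iterate_succ_apply']
      exact h.inv _ ih
  exact h3 n

theorem dim_dd {f : OnePoint ℂ → OnePoint ℂ} {K : Set (OnePoint ℂ)} (h : DD f K) :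
    1 ≤ dimH {z : ℂ | (z : OnePoint ℂ) ∈ K} := by
  rcases h with ⟨A, hA, h1, h2⟩ | ⟨M, h1, -, -, -, h2⟩
  · exact Pool.Agent.H78.END.con_dim h1 hA h2
  · refine (h2 univ isOpen_univ (by rw [inter_univ]; exact h1.ne)).trans (dimH_mono ?_)
    rintro z ⟨hz, -⟩
    exact h1.sub hz

end Pool.Agent.H56.END
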