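import Pool.Agent.H56.END.Zt
import Pool.Agent.H31.UDC.Cdx
import Pool.Agent.H44.TH.BN
import Pool.Agent.H64.TP.Main
import Pool.Agent.H21.AS.Sph

/-!
# ROB => DIM, END: from the plane to the sphere, one map with a chart

`ROBz`: the planar theorem (chapters LW, A, X, GEO) as a hypothesis. `pl_end`: no clusters at small scales in the plane. `end_cd`: a map
with a chart `CD` and fields, exactly one critical point in the Julia set, such that every nonempty closed subset of the post-critical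
set `KK` which is mapped into itself contains it, and with the ring property: `KK` is asymptotically connected.
-/

set_option autoImplicit false

open Filter Topology Polynomial Metric Set MeasureTheory

namespace Pool.Agent.H56.END

open Pool.Agent.H44.Fatou (rat rat_continuous rat_coe rat_coe_of_ne pt crit_coe)
open Pool.Agent.H56.HR (FS EqAt)
open Pool.Agent.H32.BT Pool.Agent.H79.Eul Pool.Agent.H79.Par
open Pool.Agent.H35.EX Pool.Agent.H44.RR Pool.Agent.H44.RC Pool.Agent.H47.RJ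
open Pool.Agent.H47.NN Pool.Agent.H44.ND Pool.Agent.H79.ES Pool.Agent.H44.TH
open Pool.Agent.H64.NC Pool.Agent.H61.TT Pool.Agent.H57.CP Pool.Agent.H3.NC
open Pool.Agent.H18.UP (NJ PJ Cr Geo CU ps_conj ps_pj)
open Pool.Agent.H27.BR (CD ps_ga jc_comp geo_cd cu_cd pj_sub)
open Pool.Agent.H64.JS (KJ kj_inv kj_sub)
open Pool.Agent.H31.UDC (FXc)
open Pool.Agent.H64.TP (KK)
open Pool.Agent.H83.BE (UPd)
open Pool.Agent.H21.AS (CluS ACs not_ac)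

variable {d : ℕ}

/-- the planar theorem -/
def ROBz : Prop := ∀ {f : ℂ → ℂ} {U J P E : Set ℂ} {c : ℂ} {δ : ℝ} {η : ℂ → ℂ → ℂ} {r₀ : ℝ} {X hh μ : ℂ → ℂ} {b0 : ℝ},
  Pool.Agent.H56.UD.PS f U J P {c} δ η r₀ → Pool.Agent.H56.UD.FX f U J E δ X hh μ b0 → c ∈ P →
  P ⊆ closure {y | ∃ n : ℕ, f^[n] (f c) = y} →
  (∃ M r₁ : ℝ, 0 < r₁ ∧ ∀ x ∈ P, ∀ r : ℝ, 0 < r → r < r₁ → ∃ y ∈ P, r ≤ ‖y - x‖ ∧ ‖y - x‖ ≤ M * r) →
  (∃ ε : ℝ, 0 < ε ∧ ∀ r₁ : ℝ, 0 < r₁ → ∃ r : ℝ, 0 < r ∧ r < r₁ ∧ ∃ A ⊆ P, A.Nonempty ∧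
      (∀ x ∈ A, ∀ y ∈ A, ‖x - y‖ ≤ r) ∧ ∀ x ∈ A, ∀ y ∈ P, y ∉ A → ε * r ≤ ‖x - y‖) →
  ∀ z ∈ E, (∀ n : ℕ, f^[n] z ≠ c) → (∀ ε : ℝ, 0 < ε → ∀ n₀ : ℕ, ∃ n ≥ n₀, ‖f^[n] z - c‖ < ε) → False

theorem pl_end (hR : ROBz) {f : ℂ → ℂ} {U J P E : Set ℂ} {c : ℂ} {δ : ℝ} {η : ℂ → ℂ → ℂ} {r₀ : ℝ} {X hh μ : ℂ → ℂ}
    {b0 : ℝ} (h : Pool.Agent.H56.UD.PS f U J P {c} δ η r₀) (hX : Pool.Agent.H56.UD.FX f U J E δ X hh μ b0) (hc : c ∈ P)
    (horb : P ⊆ closure {y | ∃ n : ℕ, f^[n] (f c) = y})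
    (hring : ∃ M r₁ : ℝ, 0 < r₁ ∧ ∀ x ∈ P, ∀ r : ℝ, 0 < r → r < r₁ → ∃ y ∈ P, r ≤ ‖y - x‖ ∧ ‖y - x‖ ≤ M * r)
    (hN : ∀ L ⊆ P, IsClosed L → L.Nonempty → (∀ z ∈ L, f z ∈ L) → c ∈ L)
    (hclu : ∃ ε : ℝ, 0 < ε ∧ ∀ r₁ : ℝ, 0 < r₁ → ∃ r : ℝ, 0 < r ∧ r < r₁ ∧ ∃ A ⊆ P, A.Nonempty ∧
      (∀ x ∈ A, ∀ y ∈ A, ‖x - y‖ ≤ r) ∧ ∀ x ∈ A, ∀ y ∈ P, y ∉ A → ε * r ≤ ‖x - y‖) : False := by
  obtain ⟨z, hz, h1, h2⟩ := typ h hX hN
  exact hR h hX hc horb hring hclu z hz h1 h2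

theorem ch_up (z w : ℂ) : chord (z : OnePoint ℂ) (w : OnePoint ℂ) ≤ ‖z - w‖ := by
  have h3 : chord (z : OnePoint ℂ) (w : OnePoint ℂ) = ‖z - w‖ / (√(1 + ‖z‖ ^ 2) * √(1 + ‖w‖ ^ 2)) := rfl
  have h1 : ∀ x : ℂ, 1 ≤ √(1 + ‖x‖ ^ 2) := fun x => by
    rw [Real.one_le_sqrt]
    nlinarith [sq_nonneg ‖x‖]
  rw [h3]
  refine div_le_self (norm_nonneg _) ?_
  nlinarith [h1 z, h1 w]

theorem ch_lo {R : ℝ} {z w : ℂ} (hz : ‖z‖ ≤ R) (hw : ‖w‖ ≤ R) :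
    ‖z - w‖ ≤ (1 + R ^ 2) * chord (z : OnePoint ℂ) (w : OnePoint ℂ) := by
  have h3 : chord (z : OnePoint ℂ) (w : OnePoint ℂ) = ‖z - w‖ / (√(1 + ‖z‖ ^ 2) * √(1 + ‖w‖ ^ 2)) := rfl
  have h1 : ∀ x : ℂ, ‖x‖ ≤ R → √(1 + ‖x‖ ^ 2) ≤ √(1 + R ^ 2) := fun x hx => by
    apply Real.sqrt_le_sqrt
    have := norm_nonneg x
    nlinarith
  have h0 : ∀ x : ℂ, 0 < √(1 + ‖x‖ ^ 2) := fun x => Real.sqrt_pos.2 (by positivity)
  have h2 : √(1 + ‖z‖ ^ 2) * √(1 + ‖w‖ ^ 2) ≤ 1 + R ^ 2 := by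
    calc _ ≤ √(1 + R ^ 2) * √(1 + R ^ 2) := mul_le_mul (h1 z hz) (h1 w hw) (h0 w).le (Real.sqrt_nonneg _)
      _ = 1 + R ^ 2 := Real.mul_self_sqrt (by positivity)
  rw [h3, ← mul_div_assoc, le_div_iff₀ (mul_pos (h0 z) (h0 w)), mul_comm]
  exact mul_le_mul_of_nonneg_right h2 (norm_nonneg _)

theorem end_cd (hR : ROBz) {v u : E d} {φ : OnePoint ℂ ≃ₜ OnePoint ℂ} {K : ℝ} {T : Set (OnePoint ℂ)} {D : ℕ}
    (h : CD v u φ K T D) (hx : FXc u) {c : OnePoint ℂ} (hc : IsCrit (Rf v) c) (hcJ : c ∈ JS (Rf v))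
    (huni : ∀ c', IsCrit (Rf v) c' → c' ∈ JS (Rf v) → c' = c) (hN : NFR (Rf v))
    (hUP : ∃ κ : ℝ, 0 < κ ∧ UPd κ (KK (Rf v))) (hcop : IsCoprime (pol v.1) (pol v.2)) : ACs (KK (Rf v)) := by
  have hJi : ∀ x ∈ JS (Rf v), Rf v x ∈ JS (Rf v) := fun x hx => by
    have h3 : φ x ∈ JS (Rf u) := (js_conj φ (fun y => (h.conj y).symm) x).2 hx
    have h4 := h.ga.js 1 h3
    rw [Function.iterate_one, h.conj] at h4
    exact (js_conj φ (fun y => (h.conj y).symm) _).1 h4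
  have hKJ : KK (Rf v) ⊆ JS (Rf v) := kj_sub (js_closed (Rf v)) hJi
  have hJ : φ c ∈ JS (Rf u) := (js_conj φ (fun y => (h.conj y).symm) c).2 hcJ
  have hfin : ∀ x ∈ JS (Rf v), ∃ z : ℂ, (z : OnePoint ℂ) = φ x := by
    intro x hx
    have h1 : φ x ∈ JS (Rf u) := (js_conj φ (fun y => (h.conj y).symm) x).2 hx
    have h2 : φ x ≠ OnePoint.infty := by
      intro h3
      rw [h3] at h1
      exact h1 h.ga.fi
    exact OnePoint.ne_infty_iff_exists.1 h2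
  obtain ⟨c1, hc1⟩ := hfin c hcJ
  have hcr1 : IsCrit (Rf u) (c1 : OnePoint ℂ) := by
    rw [hc1]
    exact (isCrit_conj φ h.conj c).2 hc
  rw [← hc1] at hJ
  obtain ⟨δ0, hG⟩ := geo_cd h hcr1 hJ
  have hb1 : (pol u.2).eval c1 ≠ 0 := h.ga.bne hJ
  have hCr1 : Cr (pol u.1) (pol u.2) c1 := ⟨hb1, (Pool.Agent.H18.UP.crit_iff hG hb1).1 hcr1⟩
  obtain ⟨δ, η, ρ, hPS⟩ := ps_ga h.ga hG hJ hCr1
  have hCU := cu_cd h hG
  -- the chart map
  obtain ⟨e, he⟩ : ∃ e : ℂ → OnePoint ℂ, e = fun w : ℂ => φ.symm (w : OnePoint ℂ) := ⟨_, rfl⟩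
  have hea : ∀ w : ℂ, e w = φ.symm (w : OnePoint ℂ) := fun w => by rw [he]
  have hφe : ∀ w : ℂ, φ (e w) = (w : OnePoint ℂ) := fun w => by rw [hea, φ.apply_symm_apply]
  have hec : Continuous e := he ▸ φ.symm.continuous.comp OnePoint.continuous_coe
  have heφ : ∀ (x : OnePoint ℂ) (z : ℂ), (z : OnePoint ℂ) = φ x → e z = x := fun x z hz => by
    rw [hea, hz, φ.symm_apply_apply]
  have heq : ∀ w ∈ {z : ℂ | (pol u.2).eval z ≠ 0}, Rf v (e w) = e (gg (pol u.1) (pol u.2) w) := by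
    intro w hw
    have h1 := h.conj (e w)
    rw [hφe] at h1
    have h2 : Rf u (w : OnePoint ℂ) = ((gg (pol u.1) (pol u.2) w : ℂ) : OnePoint ℂ) := rat_coe_of_ne hw
    rw [h2] at h1
    rw [hea (gg (pol u.1) (pol u.2) w), h1, φ.symm_apply_apply]
  have hPK : ∀ z : ℂ, z ∈ PJ (pol u.1) (pol u.2) (JC u) ↔ e z ∈ KK (Rf v) := by
    intro z
    rw [← ps_pj hCU z, ← hφe z]
    exact ps_conj hCU (e z)
  have hPJ := pj_sub hG
  -- the set of the critical points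
  have hset : {c | c ∈ JC u ∧ Cr (pol u.1) (pol u.2) c} = {c1} := by
    ext c'
    constructor
    · rintro ⟨h1, h2⟩
      have h3 : IsCrit (Rf u) (c' : OnePoint ℂ) := (Pool.Agent.H18.UP.crit_iff hG h2.1).2 h2.2
      rw [← hφe] at h3
      have h4 : IsCrit (Rf v) (e c') := (isCrit_conj φ h.conj _).1 h3
      have h5 : φ (e c') ∈ JS (Rf u) := by rw [hφe]; exact h1
      have h6 := huni _ h4 ((js_conj φ (fun y => (h.conj y).symm) _).1 h5)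
      have h7 : (c' : OnePoint ℂ) = (c1 : OnePoint ℂ) := by rw [hc1, ← h6, hφe]
      exact OnePoint.coe_injective h7
    · rintro rfl
      exact ⟨hJ, hCr1⟩
  rw [hset] at hPS
  obtain ⟨E, X, hh, μ, b0, hX⟩ := hx c1 hcr1 hJ
  obtain ⟨P, hP⟩ : ∃ P, P = PJ (pol u.1) (pol u.2) (JC u) := ⟨_, rfl⟩
  rw [← hP] at hPS
  have hPK' : ∀ z : ℂ, z ∈ P ↔ e z ∈ KK (Rf v) := fun z => by rw [hP]; exact hPK z
  have hPJ' : P ⊆ JC u := hP ▸ hPJ
  -- the critical point is in the post-critical set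
  have hcK : c ∈ KK (Rf v) := by
    have hne : (KK (Rf v)).Nonempty := by
      refine ⟨Rf v c, subset_closure ⟨c, hc, hcJ, 1, le_rfl, rfl⟩⟩
    obtain ⟨c', h1, h2⟩ := hN (KK (Rf v)) subset_rfl isClosed_closure hne (fun x hx => kj_inv (rat_continuous hcop) x hx)
    rw [← huni c' h2 (hKJ h1)]
    exact h1
  have hc1P : c1 ∈ P := (hPK' c1).2 (by rw [heφ c c1 hc1]; exact hcK)
  -- the orbit
  have horb : P ⊆ closure {y | ∃ n : ℕ, (gg (pol u.1) (pol u.2))^[n] (gg (pol u.1) (pol u.2) c1) = y} := by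
    rw [hP]
    refine closure_mono ?_
    rintro y ⟨c', h1, h2, n, hn, -, rfl⟩
    have h3 : c' = c1 := by
      have : c' ∈ {c | c ∈ JC u ∧ Cr (pol u.1) (pol u.2) c} := ⟨h1, h2⟩
      rw [hset] at this
      exact this
    refine ⟨n - 1, ?_⟩
    rw [← Function.iterate_succ_apply, h3]
    congr 1
    omega
  -- the bound
  obtain ⟨R, hRb⟩ := (jc_comp h.ga).isBounded.exists_norm_le
  have hK1 := hCU.K1
  have hKp : 0 < K := by linarith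
  have hM0 : 0 < 1 + R ^ 2 := by positivity
  have hb_up : ∀ z w : ℂ, chord (e z) (e w) ≤ K * ‖z - w‖ := by
    intro z w
    have h1 := (h.bil (e z) (e w)).2
    rw [hφe, hφe] at h1
    exact h1.trans (mul_le_mul_of_nonneg_left (ch_up z w) hKp.le)
  have hb_lo : ∀ z ∈ P, ∀ w ∈ P, ‖z - w‖ ≤ (1 + R ^ 2) * K * chord (e z) (e w) := by
    intro z hz w hw
    have h1 := (h.bil (e z) (e w)).1
    rw [hφe, hφe] at h1
    have h2 := ch_lo (hRb z (hPJ' hz)) (hRb w (hPJ' hw))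
    calc ‖z - w‖ ≤ (1 + R ^ 2) * chord (z : OnePoint ℂ) (w : OnePoint ℂ) := h2
      _ ≤ (1 + R ^ 2) * (K * chord (e z) (e w)) := mul_le_mul_of_nonneg_left h1 hM0.le
      _ = _ := by ring
  by_contra hAC
  obtain ⟨ε, hε, hcl⟩ := not_ac hAC
  obtain ⟨κ, hκ, r0, hr0, hup⟩ := hUP
  refine pl_end hR hPS (hX δ) hc1P horb ⟨(1 + R ^ 2) * K * (K / κ), r0 * κ / K, by positivity, ?_⟩ ?_ ?_
  · -- ring
    intro x hx r hr hrr
    have h1 : K * r / κ < r0 := by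
      rw [div_lt_iff₀ hκ]
      rw [lt_div_iff₀ hKp] at hrr
      linarith
    obtain ⟨y, hy, h2, h3⟩ := hup (e x) ((hPK' x).1 hx) (K * r / κ) (by positivity) h1
    obtain ⟨w, hw⟩ := hfin y (hKJ hy)
    have hwy := heφ y w hw
    rw [← hwy] at hy h2 h3
    have hwP : w ∈ P := (hPK' w).2 hy
    refine ⟨w, hwP, ?_, ?_⟩
    · have h4 : κ * (K * r / κ) = K * r := by field_simp
      rw [h4] at h2
      have h5 := h2.trans (hb_up x w)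
      rw [norm_sub_rev]
      exact le_of_mul_le_mul_left h5 hKp
    · have h4 := hb_lo x hx w hwP
      rw [norm_sub_rev]
      calc ‖x - w‖ ≤ (1 + R ^ 2) * K * chord (e x) (e w) := h4
        _ ≤ (1 + R ^ 2) * K * (K * r / κ) := mul_le_mul_of_nonneg_left h3.le (by positivity)
        _ = _ := by ring
  · -- closed subsets
    intro L hL hLc hLn hLf
    have hLcomp : IsCompact L := (jc_comp h.ga).of_isClosed_subset hLc (hL.trans hPJ')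
    obtain ⟨c', ⟨z0, hz0, hz0c⟩, h2⟩ := hN (e '' L) (by
        rintro _ ⟨z, hz, rfl⟩
        exact (hPK' z).1 (hL hz)) (hLcomp.image hec).isClosed (hLn.image e) (by
        rintro _ ⟨z, hz, rfl⟩
        rw [heq z (h.ga.bne (hPJ' (hL hz)))]
        exact ⟨_, hLf z hz, rfl⟩)
    have h3 : c' ∈ JS (Rf v) := hKJ (by
      rw [← hz0c]
      exact (hPK' z0).1 (hL hz0))
    have h4 := huni c' h2 h3
    have h5 : (c1 : OnePoint ℂ) = (z0 : OnePoint ℂ) := by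
      rw [hc1, ← h4, ← hz0c, hφe]
    rw [OnePoint.coe_injective h5]
    exact hz0
  · -- clusters
    refine ⟨ε / (K * ((1 + R ^ 2) * K)), by positivity, fun r₁ hr₁ => ?_⟩
    obtain ⟨r, hr, hrr, A, hAn, hAK, hAd, hAs⟩ := hcl (r₁ / ((1 + R ^ 2) * K)) (by positivity)
    refine ⟨(1 + R ^ 2) * K * r, by positivity, ?_, e ⁻¹' A, fun w hw => (hPK' w).2 (hAK hw), ?_, ?_, ?_⟩
    · rw [lt_div_iff₀ (by positivity)] at hrr
      linarith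
    · obtain ⟨a, ha⟩ := hAn
      obtain ⟨w, hw⟩ := hfin a (hKJ (hAK ha))
      exact ⟨w, by show e w ∈ A; rw [heφ a w hw]; exact ha⟩
    · intro x hx y hy
      have h1 := hb_lo x ((hPK' x).2 (hAK hx)) y ((hPK' y).2 (hAK hy))
      exact h1.trans (mul_le_mul_of_nonneg_left (hAd _ hx _ hy) (by positivity))
    · intro x hx y hy hyA
      have h1 := hAs _ hx _ ((hPK' y).1 hy) hyA
      have h2 := h1.trans (hb_up x y)
      have h3 : ε / (K * ((1 + R ^ 2) * K)) * ((1 + R ^ 2) * K * r) = ε * r / K := by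
        field_simp
      rw [h3, div_le_iff₀ hKp]
      linarith

end Pool.Agent.H56.END
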