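import Pool.Agent.H56.END.Ch
import Pool.Agent.H66.DIM.If

/-!
# ROB => DIM, END, any number of Julia critical points: from the plane to the sphere, one map with a chart

`ROBm`: the planar theorem (chapters LW, A, X, GEO) as a hypothesis. `MnS`: minimal pieces on the sphere. `EMBz`: an orbit which tends
to `KK` tends to a minimal piece of `KK` which contains a critical point. `end_cdm`: a map with a chart `CD` and fields, with a
critical point in the Julia set, `KK` totally disconnected, with `EMBz` and the ring property: a minimal piece of `KK` is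
asymptotically connected.
-/

set_option autoImplicit false

open Filter Topology Polynomial Metric Set MeasureTheory

namespace Pool.Agent.H56.END

open Pool.Agent.H44.Fatou (rat rat_continuous rat_coe rat_coe_of_ne pt crit_coe)
open Pool.Agent.H56.HR (FS EqAt)
open Pool.Agent.H32.BT Pool.Agent.H79.Eul Pool.Agent.H79.Par
open Pool.Agent.H35.EX Pool.Agent.H44.RR Pool.Agent.H44.RC Pool.Agent.H47.RJ
open Pool.Agent.H47.NN Pool.Agent.H44.ND Pool.Agent.H79.ES Pool.Agent.H44.TH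
open Pool.Agent.H64.NC Pool.Agent.H61.TT Pool.Agent.H57.CP Pool.Agent.H3.NC
open Pool.Agent.H18.UP (NJ PJ Cr Geo CU ps_conj ps_pj)
open Pool.Agent.H27.BR (CD ps_ga jc_comp geo_cd cu_cd pj_sub)
open Pool.Agent.H64.JS (KJ kj_inv kj_sub)
open Pool.Agent.H31.UDC (FXc)
open Pool.Agent.H64.TP (KK)
open Pool.Agent.H83.BE (UPd)
open Pool.Agent.H21.AS (CluS ACs not_ac)
open Pool.Agent.H66.DIM (Mn Tz Rg Clu)

variable {d : ℕ}

/-- the planar theorem: `M` is a minimal piece of the totally disconnected set `P`; all critical points in `J` are recurrent -/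
def ROBm : Prop := ∀ {f : ℂ → ℂ} {U J P Cr M E : Set ℂ} {δ : ℝ} {η : ℂ → ℂ → ℂ} {r₀ : ℝ} {X hh μ : ℂ → ℂ} {b0 : ℝ},
  Pool.Agent.H56.UD.PS f U J P Cr δ η r₀ → Pool.Agent.H56.UD.FX f U J E δ X hh μ b0 → Mn f P M → (M ∩ Cr).Nonempty →
  IsTotallyDisconnected P → Cr ⊆ P → (∀ x ∈ P, x ∉ M → f x ∉ M) →
  (∀ c ∈ Cr, ∀ ε : ℝ, 0 < ε → ∃ n : ℕ, 1 ≤ n ∧ ‖f^[n] c - c‖ < ε) → Rg M → Clu M → ∀ z ∈ E, Tz f Cr M z → False

/-- `M` is a minimal piece of `P`, on the sphere -/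
structure MnS (f : OnePoint ℂ → OnePoint ℂ) (P M : Set (OnePoint ℂ)) : Prop where
  cl : IsClosed M
  ne : M.Nonempty
  sub : M ⊆ P
  inv : ∀ x ∈ M, f x ∈ M
  min : ∀ L ⊆ M, IsClosed L → L.Nonempty → (∀ x ∈ L, f x ∈ L) → L = M
  off : IsClosed (P \ M)
  com : ∀ x ∈ P, x ∉ M → f x ∉ M

/-- orbits which tend to `KK` tend to a minimal piece of it which contains a critical point -/
def EMBz (f : OnePoint ℂ → OnePoint ℂ) : Prop :=
  ∀ x, (∀ ε : ℝ, 0 < ε → ∀ᶠ n : ℕ in atTop, ∃ p ∈ KK f, chord (f^[n] x) p < ε) → ∃ M, MnS f (KK f) M ∧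
    (∃ c ∈ M, IsCrit f c) ∧ ∀ ε : ℝ, 0 < ε → ∀ᶠ n : ℕ in atTop, ∃ p ∈ M, chord (f^[n] x) p < ε

/-- closures of orbits are mapped into themselves -/
theorem orb_inv {f : OnePoint ℂ → OnePoint ℂ} (hf : Continuous f) (x : OnePoint ℂ) :
    ∀ y ∈ closure {y | ∃ n : ℕ, f^[n] x = y}, f y ∈ closure {y | ∃ n : ℕ, f^[n] x = y} := by
  intro y hy
  have h1 : f y ∈ closure (f '' {y | ∃ n : ℕ, f^[n] x = y}) :=
    image_closure_subset_closure_image hf ⟨y, hy, rfl⟩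
  refine closure_mono ?_ h1
  rintro _ ⟨_, ⟨n, rfl⟩, rfl⟩
  exact ⟨n + 1, Function.iterate_succ_apply' f n x⟩

theorem mns_dense {f : OnePoint ℂ → OnePoint ℂ} (hf : Continuous f) {P M : Set (OnePoint ℂ)} (h : MnS f P M)
    {x : OnePoint ℂ} (hx : x ∈ M) : M ⊆ closure {y | ∃ n : ℕ, f^[n] x = y} := by
  have h0 : ∀ n : ℕ, f^[n] x ∈ M := by
    intro n
    induction n with
    | zero => exact hx
    | succ n ih =>
      rw [Function.iterate_succ_apply']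
      exact h.inv _ ih
  have h1 := h.min (closure {y | ∃ n : ℕ, f^[n] x = y}) (closure_minimal (by
    rintro y ⟨n, rfl⟩
    exact h0 n) h.cl) isClosed_closure ⟨x, subset_closure ⟨0, rfl⟩⟩ (orb_inv hf x)
  rw [h1]

theorem end_cdm (hR : ROBm) {v u : E d} {φ : OnePoint ℂ ≃ₜ OnePoint ℂ} {K : ℝ} {T : Set (OnePoint ℂ)} {D : ℕ}
    (h : CD v u φ K T D) (hx : FXc u) {c : OnePoint ℂ} (hc : IsCrit (Rf v) c) (hcJ : c ∈ JS (Rf v))
    (htd : IsTotallyDisconnected (KK (Rf v))) (hE : EMBz (Rf v))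
    (hown : ∀ c, IsCrit (Rf v) c → c ∈ JS (Rf v) → c ∈ Om (Rf v) c)
    (hUP : ∃ κ : ℝ, 0 < κ ∧ UPd κ (KK (Rf v))) (hcop : IsCoprime (pol v.1) (pol v.2)) :
    ∃ M, MnS (Rf v) (KK (Rf v)) M ∧ (∃ c ∈ M, IsCrit (Rf v) c) ∧ ACs M := by
  by_contra hAC
  push Not at hAC
  have hcont : Continuous (Rf v) := rat_continuous hcop
  have hJi : ∀ x ∈ JS (Rf v), Rf v x ∈ JS (Rf v) := fun x hx => by
    have h3 : φ x ∈ JS (Rf u) := (js_conj φ (fun y => (h.conj y).symm) x).2 hx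
    have h4 := h.ga.js 1 h3
    rw [Function.iterate_one, h.conj] at h4
    exact (js_conj φ (fun y => (h.conj y).symm) _).1 h4
  have hKJ : KK (Rf v) ⊆ JS (Rf v) := kj_sub (js_closed (Rf v)) hJi
  have hKc : IsClosed (KK (Rf v)) := isClosed_closure
  have hJ : φ c ∈ JS (Rf u) := (js_conj φ (fun y => (h.conj y).symm) c).2 hcJ
  have hfin : ∀ x ∈ JS (Rf v), ∃ z : ℂ, (z : OnePoint ℂ) = φ x := by
    intro x hx
    have h1 : φ x ∈ JS (Rf u) := (js_conj φ (fun y => (h.conj y).symm) x).2 hx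
    have h2 : φ x ≠ OnePoint.infty := by
      intro h3
      rw [h3] at h1
      exact h1 h.ga.fi
    exact OnePoint.ne_infty_iff_exists.1 h2
  obtain ⟨c1, hc1⟩ := hfin c hcJ
  have hcr1 : IsCrit (Rf u) (c1 : OnePoint ℂ) := by
    rw [hc1]
    exact (isCrit_conj φ h.conj c).2 hc
  rw [← hc1] at hJ
  obtain ⟨δ0, hG⟩ := geo_cd h hcr1 hJ
  have hb1 : (pol u.2).eval c1 ≠ 0 := h.ga.bne hJ
  have hCr1 : Cr (pol u.1) (pol u.2) c1 := ⟨hb1, (Pool.Agent.H18.UP.crit_iff hG hb1).1 hcr1⟩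
  obtain ⟨δ, η, ρ, hPS⟩ := ps_ga h.ga hG hJ hCr1
  have hCU := cu_cd h hG
  -- the chart map
  obtain ⟨e, he⟩ : ∃ e : ℂ → OnePoint ℂ, e = fun w : ℂ => φ.symm (w : OnePoint ℂ) := ⟨_, rfl⟩
  have hea : ∀ w : ℂ, e w = φ.symm (w : OnePoint ℂ) := fun w => by rw [he]
  have hφe : ∀ w : ℂ, φ (e w) = (w : OnePoint ℂ) := fun w => by rw [hea, φ.apply_symm_apply]
  have hec : Continuous e := he ▸ φ.symm.continuous.comp OnePoint.continuous_coe
  have hei : Function.Injective e := fun x y hxy => by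
    have h1 : (x : OnePoint ℂ) = (y : OnePoint ℂ) := by rw [← hφe, ← hφe, hxy]
    exact OnePoint.coe_injective h1
  have heφ : ∀ (x : OnePoint ℂ) (z : ℂ), (z : OnePoint ℂ) = φ x → e z = x := fun x z hz => by
    rw [hea, hz, φ.symm_apply_apply]
  have heq : ∀ w ∈ {z : ℂ | (pol u.2).eval z ≠ 0}, Rf v (e w) = e (gg (pol u.1) (pol u.2) w) := by
    intro w hw
    have h1 := h.conj (e w)
    rw [hφe] at h1
    have h2 : Rf u (w : OnePoint ℂ) = ((gg (pol u.1) (pol u.2) w : ℂ) : OnePoint ℂ) := rat_coe_of_ne hw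
    rw [h2] at h1
    rw [hea (gg (pol u.1) (pol u.2) w), h1, φ.symm_apply_apply]
  have hPK : ∀ z : ℂ, z ∈ PJ (pol u.1) (pol u.2) (JC u) ↔ e z ∈ KK (Rf v) := by
    intro z
    rw [← ps_pj hCU z, ← hφe z]
    exact ps_conj hCU (e z)
  have hPJ := pj_sub hG
  obtain ⟨E, X, hh, μ, b0, hX⟩ := hx c1 hcr1 hJ
  obtain ⟨P, hP⟩ : ∃ P, P = PJ (pol u.1) (pol u.2) (JC u) := ⟨_, rfl⟩
  obtain ⟨C, hC⟩ : ∃ C, C = {c | c ∈ JC u ∧ Cr (pol u.1) (pol u.2) c} := ⟨_, rfl⟩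
  obtain ⟨g, hg⟩ : ∃ g, g = gg (pol u.1) (pol u.2) := ⟨_, rfl⟩
  have hX' := hX δ
  rw [← hP, ← hC, ← hg] at hPS
  rw [← hg] at hX' heq
  have hPK' : ∀ z : ℂ, z ∈ P ↔ e z ∈ KK (Rf v) := fun z => by rw [hP]; exact hPK z
  have hPJ' : P ⊆ JC u := hP ▸ hPJ
  have hJU : ∀ z ∈ JC u, z ∈ {z : ℂ | (pol u.2).eval z ≠ 0} := fun z hz => h.ga.bne hz
  have hit : ∀ z ∈ JC u, ∀ n : ℕ, (Rf v)^[n] (e z) = e (g^[n] z) := by
    intro z hz n
    induction n with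
    | zero => rfl
    | succ n ih =>
      rw [Function.iterate_succ_apply', Function.iterate_succ_apply', ih, heq _ (hJU _ (Pool.Agent.H56.UD.J_it hPS n hz))]
  -- the bounds
  obtain ⟨R, hRb⟩ := (jc_comp h.ga).isBounded.exists_norm_le
  have hK1 := hCU.K1
  have hKp : 0 < K := by linarith
  have hM0 : 0 < 1 + R ^ 2 := by positivity
  have hb_up : ∀ z w : ℂ, chord (e z) (e w) ≤ K * ‖z - w‖ := by
    intro z w
    have h1 := (h.bil (e z) (e w)).2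
    rw [hφe, hφe] at h1
    exact h1.trans (mul_le_mul_of_nonneg_left (ch_up z w) hKp.le)
  have hb_lo : ∀ z ∈ JC u, ∀ w ∈ JC u, ‖z - w‖ ≤ (1 + R ^ 2) * K * chord (e z) (e w) := by
    intro z hz w hw
    have h1 := (h.bil (e z) (e w)).1
    rw [hφe, hφe] at h1
    have h2 := ch_lo (hRb z hz) (hRb w hw)
    calc ‖z - w‖ ≤ (1 + R ^ 2) * chord (z : OnePoint ℂ) (w : OnePoint ℂ) := h2
      _ ≤ (1 + R ^ 2) * (K * chord (e z) (e w)) := mul_le_mul_of_nonneg_left h1 hM0.le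
      _ = _ := by ring
  have hQ : 0 < (1 + R ^ 2) * K := by positivity
  -- the typical point
  obtain ⟨z, hzE, hzC⟩ : ∃ z ∈ E, z ∉ ⋃ c ∈ C, {z | z ∈ JC u ∧ ∃ n : ℕ, g^[n] z = c} := by
    by_contra hcon
    push Not at hcon
    have h1 : volume E ≤ volume (⋃ c ∈ C, {z | z ∈ JC u ∧ ∃ n : ℕ, g^[n] z = c}) := measure_mono hcon
    rw [(hPS.Cf.countable.biUnion fun c _ => pre_cnt hPS c).measure_zero] at h1
    exact absurd hX'.Ep (not_lt.2 h1)
  have hzJ : z ∈ JC u := hX'.EJ hzE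
  have hzn : ∀ n : ℕ, g^[n] z ∉ C := by
    intro n hn
    exact hzC (mem_biUnion hn ⟨hzJ, n, rfl⟩)
  obtain ⟨S, hS, ⟨c0, hc0S, hc0⟩, hSz⟩ := hE (e z) (by
    intro ε hε
    filter_upwards [om_P hPS hX' hzE (div_pos hε hKp)] with n hn
    obtain ⟨p, hp, h1⟩ := hn
    refine ⟨e p, (hPK' p).1 hp, ?_⟩
    rw [hit z hzJ n]
    refine (hb_up _ _).trans_lt ?_
    rw [mul_comm]
    exact (lt_div_iff₀ hKp).1 h1)
  obtain ⟨M, hM⟩ : ∃ M, M = e ⁻¹' S := ⟨_, rfl⟩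
  have hMS : ∀ x : ℂ, x ∈ M ↔ e x ∈ S := fun x => by rw [hM]; rfl
  have hSJ : S ⊆ JS (Rf v) := hS.sub.trans hKJ
  have hSf : ∀ s ∈ S, ∃ x ∈ M, e x = s := by
    intro s hs
    obtain ⟨w, hw⟩ := hfin s (hSJ hs)
    have h1 := heφ s w hw
    exact ⟨w, (hMS w).2 (h1 ▸ hs), h1⟩
  have hMP : M ⊆ P := fun x hx => (hPK' x).2 (hS.sub ((hMS x).1 hx))
  have hMJ : M ⊆ JC u := hMP.trans hPJ'
  have hMn : Mn g P M := by
    refine ⟨hM ▸ hS.cl.preimage hec, ?_, hMP, ?_, ?_, ?_⟩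
    · obtain ⟨s, hs⟩ := hS.ne
      obtain ⟨x, hx, -⟩ := hSf s hs
      exact ⟨x, hx⟩
    · intro x hx
      rw [hMS, ← heq x (hJU x (hMJ hx))]
      exact hS.inv _ ((hMS x).1 hx)
    · intro x hx y hy
      rw [Metric.mem_closure_iff]
      intro ε hε
      have h1 := mns_dense hcont hS ((hMS x).1 hx) ((hMS y).1 hy)
      have h2 : {w | chord (e y) w < ε / ((1 + R ^ 2) * K)} ∈ 𝓝 (e y) := by
        refine (Pool.Agent.H44.RC.ch_ball (e y) _).mem_nhds ?_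
        show chord (e y) (e y) < _
        rw [chord_zero]
        positivity
      obtain ⟨_, h3, n, rfl⟩ := mem_closure_iff_nhds.1 h1 _ h2
      have h4 : chord (e y) ((Rf v)^[n] (e x)) < ε / ((1 + R ^ 2) * K) := h3
      rw [hit x (hMJ hx) n] at h4
      refine ⟨g^[n] x, ⟨n, rfl⟩, ?_⟩
      rw [dist_eq_norm]
      refine (hb_lo y (hMJ hy) _ (Pool.Agent.H56.UD.J_it hPS n (hMJ hx))).trans_lt ?_
      rw [mul_comm]
      exact (lt_div_iff₀ hQ).1 h4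
    · have h1 : P \ M = e ⁻¹' (KK (Rf v) \ S) := by
        ext x
        constructor
        · rintro ⟨h2, h3⟩
          exact ⟨(hPK' x).1 h2, fun h4 => h3 ((hMS x).2 h4)⟩
        · rintro ⟨h2, h3⟩
          exact ⟨(hPK' x).2 h2, fun h4 => h3 ((hMS x).1 h4)⟩
      rw [h1]
      exact hS.off.preimage hec
  have hMC : (M ∩ C).Nonempty := by
    obtain ⟨x, hx, hxe⟩ := hSf c0 hc0S
    refine ⟨x, hx, ?_⟩
    have h1 : IsCrit (Rf u) (x : OnePoint ℂ) := by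
      rw [← hφe x, hxe]
      exact (isCrit_conj φ h.conj c0).2 hc0
    rw [hC]
    have hb : (pol u.2).eval x ≠ 0 := hJU x (hMJ hx)
    exact ⟨hMJ hx, hb, (Pool.Agent.H18.UP.crit_iff hG hb).1 h1⟩
  -- the critical points
  have hCe : ∀ c ∈ C, IsCrit (Rf v) (e c) ∧ e c ∈ JS (Rf v) := by
    intro c' h1
    rw [hC] at h1
    obtain ⟨h1, h2⟩ := h1
    have h3 : IsCrit (Rf u) (c' : OnePoint ℂ) := (Pool.Agent.H18.UP.crit_iff hG h2.1).2 h2.2
    rw [← hφe] at h3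
    have h5 : φ (e c') ∈ JS (Rf u) := by rw [hφe]; exact h1
    exact ⟨(isCrit_conj φ h.conj _).1 h3, (js_conj φ (fun y => (h.conj y).symm) _).1 h5⟩
  have hCJ : C ⊆ JC u := hPS.CJ
  have hCP : C ⊆ P := by
    intro c' h1
    obtain ⟨h2, h3⟩ := hCe c' h1
    rw [hPK', ← hKc.closure_eq, mem_closure_iff_nhds]
    intro W hW
    obtain ⟨n, hn, hn2⟩ := frequently_atTop.1 (hown (e c') h2 h3 W hW) 1
    exact ⟨_, hn2, subset_closure ⟨e c', h2, h3, n, hn, rfl⟩⟩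
  have hrec : ∀ c ∈ C, ∀ ε : ℝ, 0 < ε → ∃ n : ℕ, 1 ≤ n ∧ ‖g^[n] c - c‖ < ε := by
    intro c' h1 ε hε
    obtain ⟨h2, h3⟩ := hCe c' h1
    have h4 : {w | chord (e c') w < ε / ((1 + R ^ 2) * K)} ∈ 𝓝 (e c') := by
      refine (Pool.Agent.H44.RC.ch_ball (e c') _).mem_nhds ?_
      show chord (e c') (e c') < _
      rw [chord_zero]
      positivity
    obtain ⟨n, hn, hn2⟩ := frequently_atTop.1 (hown (e c') h2 h3 _ h4) 1
    have h5 : chord (e c') ((Rf v)^[n] (e c')) < ε / ((1 + R ^ 2) * K) := hn2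
    rw [hit c' (hCJ h1) n] at h5
    refine ⟨n, hn, ?_⟩
    rw [norm_sub_rev]
    refine (hb_lo _ (hCJ h1) _ (Pool.Agent.H56.UD.J_it hPS n (hCJ h1))).trans_lt ?_
    rw [mul_comm]
    exact (lt_div_iff₀ hQ).1 h5
  have hPM : ∀ x ∈ P, x ∉ M → g x ∉ M := by
    intro x hx hxM hgx
    rw [hMS, ← heq x (hJU x (hPJ' hx))] at hgx
    exact hS.com (e x) ((hPK' x).1 hx) (fun h4 => hxM ((hMS x).2 h4)) hgx
  have htdP : IsTotallyDisconnected P := by
    intro t ht htc x hx y hy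
    have h1 := htd (e '' t) (by
      rintro _ ⟨w, hw, rfl⟩
      exact (hPK' w).1 (ht hw)) (htc.image e hec.continuousOn) ⟨x, hx, rfl⟩ ⟨y, hy, rfl⟩
    exact hei h1
  -- the distance of the pieces
  obtain ⟨s0, hs0, hs1⟩ := Pool.Agent.H64.NC.ch_sep hS.cl hS.off (disjoint_left.2 fun x hx hx' => hx'.2 hx)
  obtain ⟨ε, hε, hcl⟩ := not_ac (hAC S hS ⟨c0, hc0S, hc0⟩)
  obtain ⟨κ, hκ, r0, hr0, hup⟩ := hUP
  refine hR hPS hX' hMn hMC htdP hCP hPM hrec ⟨(1 + R ^ 2) * K * (K / κ), min r0 s0 * κ / K, by positivity, ?_⟩ ?_ z hzE ⟨hzn, ?_⟩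
  · -- ring
    intro x hx r hr hrr
    have h1 : K * r / κ < min r0 s0 := by
      rw [div_lt_iff₀ hκ]
      rw [lt_div_iff₀ hKp] at hrr
      linarith
    obtain ⟨y, hy, h2, h3⟩ := hup (e x) ((hPK' x).1 (hMP hx)) (K * r / κ) (by positivity) (h1.trans_le (min_le_left _ _))
    have hyS : y ∈ S := by
      by_contra hyS
      have h4 := hs1 (e x) ((hMS x).1 hx) y ⟨hy, hyS⟩
      have h5 := h1.trans_le (min_le_right r0 s0)
      linarith
    obtain ⟨w, hwM, rfl⟩ := hSf y hyS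
    refine ⟨w, hwM, ?_, ?_⟩
    · have h4 : κ * (K * r / κ) = K * r := by field_simp
      rw [h4] at h2
      have h5 := h2.trans (hb_up x w)
      rw [norm_sub_rev]
      exact le_of_mul_le_mul_left h5 hKp
    · have h4 := hb_lo x (hMJ hx) w (hMJ hwM)
      rw [norm_sub_rev]
      calc ‖x - w‖ ≤ (1 + R ^ 2) * K * chord (e x) (e w) := h4
        _ ≤ (1 + R ^ 2) * K * (K * r / κ) := mul_le_mul_of_nonneg_left h3.le (by positivity)
        _ = _ := by ring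
  · -- clusters
    refine ⟨ε / (K * ((1 + R ^ 2) * K)), by positivity, fun r₁ hr₁ => ?_⟩
    obtain ⟨r, hr, hrr, A, hAn, hAK, hAd, hAs⟩ := hcl (r₁ / ((1 + R ^ 2) * K)) (by positivity)
    refine ⟨(1 + R ^ 2) * K * r, by positivity, ?_, e ⁻¹' A, fun w hw => (hMS w).2 (hAK hw), ?_, ?_, ?_⟩
    · rw [lt_div_iff₀ (by positivity)] at hrr
      linarith
    · obtain ⟨a, ha⟩ := hAn
      obtain ⟨w, -, hw⟩ := hSf a (hAK ha)
      exact ⟨w, by show e w ∈ A; rw [hw]; exact ha⟩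
    · intro x hx y hy
      have h1 := hb_lo x (hMJ ((hMS x).2 (hAK hx))) y (hMJ ((hMS y).2 (hAK hy)))
      exact h1.trans (mul_le_mul_of_nonneg_left (hAd _ hx _ hy) (by positivity))
    · intro x hx y hy hyA
      have h1 := hAs _ hx _ ((hMS y).1 hy) hyA
      have h2 := h1.trans (hb_up x y)
      have h3 : ε / (K * ((1 + R ^ 2) * K)) * ((1 + R ^ 2) * K * r) = ε * r / K := by
        field_simp
      rw [h3, div_le_iff₀ hKp]
      linarith
  · -- the limit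
    intro ε' hε'
    obtain ⟨N, hN⟩ := eventually_atTop.1 (hSz (ε' / ((1 + R ^ 2) * K)) (by positivity))
    refine ⟨N, fun n hn => ?_⟩
    obtain ⟨p, hp, h1⟩ := hN n hn
    obtain ⟨y, hy, rfl⟩ := hSf p hp
    refine ⟨y, hy, ?_⟩
    rw [hit z hzJ n] at h1
    refine (hb_lo _ (Pool.Agent.H56.UD.J_it hPS n hzJ) y (hMJ hy)).trans_lt ?_
    rw [mul_comm]
    exact (lt_div_iff₀ hQ).1 h1

end Pool.Agent.H56.END
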