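import Pool.Agent.H56.END.Fin
import Pool.Agent.H64.XG.Rob
import Pool.Agent.H81.RW.Nva

/-!
# THEOREM DIM: unconditional form

`robm`: the planar theorem (chapters H64/XG and H81/RW). `dd_all`: THEOREM DIM for one map, Julia set not the sphere.
-/

set_option autoImplicit false

open Filter Topology Polynomial Metric Set MeasureTheory

namespace Pool.Agent.H56.END

open Pool.Agent.H56.HR (FS)
open Pool.Agent.H32.BT Pool.Agent.H79.Eul Pool.Agent.H79.Par Pool.Agent.H44.RC
open Pool.Agent.H57.CF Pool.Agent.H47.NM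
open Pool.Agent.H64.TP (KK)

variable {d : ℕ}

theorem robm : ROBm := Pool.Agent.H64.XG.robm_of Pool.Agent.H81.RW.nva

/-- THEOREM DIM for one map -/
theorem dd_all {m : ℕ} (hd : 2 ≤ d) (hm : m ≤ d) {x : Em d m} (hcop : IsCoprime (pol x.1) (pol x.2))
    (hdeg : max (pol x.1).natDegree (pol x.2).natDegree = d) (hup : ¬ UpF d m x)
    (hJ : JS (Rf (ex d m x)) ≠ univ) :
    (∀ c, IsCrit (Rf (ex d m x)) c → c ∉ JS (Rf (ex d m x))) ∨ DD (Rf (ex d m x)) (KK (Rf (ex d m x))) := by
  by_cases h : ∀ c, IsCrit (Rf (ex d m x)) c → c ∉ JS (Rf (ex d m x))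
  · exact Or.inl h
  · push Not at h
    obtain ⟨c, hc, hcJ⟩ := h
    right
    refine dd_fam robm hd hm hcop hdeg hup ?_ hc hcJ
    by_contra hne
    rw [not_nonempty_iff_eq_empty] at hne
    apply hJ
    unfold JS
    rw [hne, compl_empty]

end Pool.Agent.H56.END
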