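import Pool.Agent.H56.END.Chm
import Pool.Agent.H39.EMB.Fin

/-!
# ROB => DIM, END: from the decomposition `DEC` (H39/EMB) to `EMBz`
-/

set_option autoImplicit false

open Filter Topology Metric Set

namespace Pool.Agent.H56.END

open Pool.Agent.H32.BT Pool.Agent.H35.EX Pool.Agent.H44.RC Pool.Agent.H44.RR
open Pool.Agent.H64.JS (KJ)
open Pool.Agent.H64.TP (KK)
open Pool.Agent.H39.EMB (DEC MinSet)

theorem om_near {f : OnePoint ℂ → OnePoint ℂ} {x : OnePoint ℂ} {ε : ℝ} (hε : 0 < ε) :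
    ∀ᶠ n : ℕ in atTop, ∃ p ∈ Om f x, chord (f^[n] x) p < ε := by
  by_contra hcon
  rw [not_eventually] at hcon
  have hcl : IsClosed {w : OnePoint ℂ | ∀ p ∈ Om f x, ε ≤ chord w p} := by
    have h1 : {w : OnePoint ℂ | ∀ p ∈ Om f x, ε ≤ chord w p} = ⋂ p ∈ Om f x, {w | ε ≤ chord w p} := by
      ext w
      simp
    rw [h1]
    exact isClosed_biInter fun p _ => isClosed_le continuous_const
      (chord_cont.comp (continuous_id.prodMk continuous_const))
  obtain ⟨y, hy, hyc⟩ := hcl.isCompact.exists_mapClusterPt_of_frequently (l := atTop) (f := fun n : ℕ => f^[n] x)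
    (hcon.mono fun n hn => by
      push Not at hn
      exact hn)
  have hyO : y ∈ Om f x := mapClusterPt_iff_frequently.1 hyc
  have h1 := hy y hyO
  rw [chord_zero] at h1
  linarith

theorem emb_dec {f : OnePoint ℂ → OnePoint ℂ} (hfin : {c | IsCrit f c}.Finite) (h : DEC f) : EMBz f := by
  intro x hx
  obtain ⟨c, hc, hcJ, hom⟩ := h.typ x (fun ε hε => by
    obtain ⟨N, hN⟩ := eventually_atTop.1 (hx ε hε)
    exact ⟨N, fun n hn => hN n hn⟩)
  have hM := h.min c hc hcJ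
  have hsub : ∀ c', IsCrit f c' → c' ∈ JS f → Om f c' ⊆ KK f := by
    intro c' h1 h2 y hy
    show y ∈ KJ {c | IsCrit f c} (JS f) f
    rw [h.dec]
    exact mem_biUnion (x := c') ⟨h1, h2⟩ hy
  have hin : ∀ y ∈ KK f, ∃ c', IsCrit f c' ∧ c' ∈ JS f ∧ y ∈ Om f c' := by
    intro y hy
    have h1 : y ∈ KJ {c | IsCrit f c} (JS f) f := hy
    rw [h.dec] at h1
    obtain ⟨c', h2, h3⟩ := mem_iUnion₂.1 h1
    exact ⟨c', h2.1, h2.2, h3⟩
  refine ⟨Om f c, ⟨hM.cl, hM.ne, hsub c hc hcJ, hM.inv, hM.min, ?_, ?_⟩, ⟨c, h.own c hc hcJ, hc⟩, fun ε hε => ?_⟩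
  · have h1 : KK f \ Om f c = ⋃ c' ∈ {c' | IsCrit f c' ∧ c' ∈ JS f ∧ Om f c' ≠ Om f c}, Om f c' := by
      ext y
      constructor
      · rintro ⟨h2, h3⟩
        obtain ⟨c', h4, h5, h6⟩ := hin y h2
        refine mem_biUnion (x := c') ⟨h4, h5, fun h7 => h3 (h7 ▸ h6)⟩ h6
      · intro h2
        obtain ⟨c', ⟨h3, h4, h5⟩, h6⟩ := mem_iUnion₂.1 h2
        refine ⟨hsub c' h3 h4 h6, fun h7 => ?_⟩
        rcases h.eqd c' c h3 h4 hc hcJ with h8 | h8
        · exact h5 h8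
        · exact disjoint_left.1 h8 h6 h7
    rw [h1]
    exact (hfin.subset fun c' h2 => h2.1).isClosed_biUnion fun c' h2 => (h.min c' h2.1 h2.2.1).cl
  · intro y hy hyc hfy
    obtain ⟨c', h4, h5, h6⟩ := hin y hy
    rcases h.eqd c' c h4 h5 hc hcJ with h8 | h8
    · exact hyc (h8 ▸ h6)
    · exact disjoint_left.1 h8 ((h.min c' h4 h5).inv y h6) hfy
  · rw [← hom]
    exact om_near hε

end Pool.Agent.H56.END
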