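import Pool.Agent.H56.END.Fin

/-!
# ROB => DIM, END, local form: all minimal pieces

`FXl`: fields with `E` in the basin of a given clopen invariant part of the post-critical set (THEOREM LOC). `end_loc`: a map with a chart
and `FXl`: every minimal piece of `KK` with a critical point is asymptotically connected. `ac_dec`: then `KK` is asymptotically connected (`DEC`). `DDl`: the local dichotomy.
-/

set_option autoImplicit false

open Filter Topology Polynomial Metric Set MeasureTheory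

namespace Pool.Agent.H56.END

open Pool.Agent.H44.Fatou (rat rat_continuous rat_coe rat_coe_of_ne pt crit_coe)
open Pool.Agent.H56.HR (FS EqAt)
open Pool.Agent.H32.BT Pool.Agent.H79.Eul Pool.Agent.H79.Par
open Pool.Agent.H35.EX Pool.Agent.H44.RR Pool.Agent.H44.RC Pool.Agent.H47.RJ
open Pool.Agent.H47.NN Pool.Agent.H44.ND Pool.Agent.H79.ES Pool.Agent.H44.TH
open Pool.Agent.H64.NC Pool.Agent.H61.TT Pool.Agent.H57.CP Pool.Agent.H3.NC
open Pool.Agent.H18.UP (NJ PJ Cr Geo CU ps_conj ps_pj)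
open Pool.Agent.H27.BR (CD ps_ga jc_comp geo_cd cu_cd pj_sub)
open Pool.Agent.H64.JS (KJ kj_inv kj_sub)
open Pool.Agent.H64.TP (KK)
open Pool.Agent.H83.BE (UPd)
open Pool.Agent.H21.AS (CluS ACs not_ac up_ac dims_ac)
open Pool.Agent.H66.DIM (Mn Tz Rg Clu)
open Pool.Agent.H39.EMB (DEC)

variable {d : ℕ}

/-- the fields of THEOREM LOC: for every clopen invariant part `M` of the post-critical set with a critical point there is a field
with `E` in the basin of `M` -/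
def FXl (u : E d) : Prop := ∀ M : Set ℂ, IsClosed M → M ⊆ PJ (pol u.1) (pol u.2) (JC u) →
  (∀ z ∈ M, gg (pol u.1) (pol u.2) z ∈ M) → IsClosed (PJ (pol u.1) (pol u.2) (JC u) \ M) →
  (∀ z ∈ PJ (pol u.1) (pol u.2) (JC u), z ∉ M → gg (pol u.1) (pol u.2) z ∉ M) →
  (∃ c ∈ M, Cr (pol u.1) (pol u.2) c) →
  ∃ (E : Set ℂ) (X h μ : ℂ → ℂ) (b0 : ℝ), (∀ δ : ℝ,
    Pool.Agent.H56.UD.FX (gg (pol u.1) (pol u.2)) {z : ℂ | (pol u.2).eval z ≠ 0} (JC u) E δ X h μ b0) ∧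
    ∀ z ∈ E, ∀ ε : ℝ, 0 < ε → ∃ N : ℕ, ∀ n ≥ N, ∃ p ∈ M, ‖(gg (pol u.1) (pol u.2))^[n] z - p‖ < ε

theorem end_loc (hR : ROBm) {v u : E d} {φ : OnePoint ℂ ≃ₜ OnePoint ℂ} {K : ℝ} {T : Set (OnePoint ℂ)} {D : ℕ}
    (h : CD v u φ K T D) (hx : FXl u)
    (htd : IsTotallyDisconnected (KK (Rf v))) {S : Set (OnePoint ℂ)} (hS : MnS (Rf v) (KK (Rf v)) S)
    {c : OnePoint ℂ} (hc0S : c ∈ S) (hc : IsCrit (Rf v) c)
    (hown : ∀ c, IsCrit (Rf v) c → c ∈ JS (Rf v) → c ∈ Om (Rf v) c)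
    (hUP : ∃ κ : ℝ, 0 < κ ∧ UPd κ (KK (Rf v))) (hcop : IsCoprime (pol v.1) (pol v.2)) :
    ACs S := by
  by_contra hAC
  have hcont : Continuous (Rf v) := rat_continuous hcop
  have hJi : ∀ x ∈ JS (Rf v), Rf v x ∈ JS (Rf v) := fun x hx => by
    have h3 : φ x ∈ JS (Rf u) := (js_conj φ (fun y => (h.conj y).symm) x).2 hx
    have h4 := h.ga.js 1 h3
    rw [Function.iterate_one, h.conj] at h4
    exact (js_conj φ (fun y => (h.conj y).symm) _).1 h4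
  have hKJ : KK (Rf v) ⊆ JS (Rf v) := kj_sub (js_closed (Rf v)) hJi
  have hKc : IsClosed (KK (Rf v)) := isClosed_closure
  have hcJ : c ∈ JS (Rf v) := hKJ (hS.sub hc0S)
  have hJ : φ c ∈ JS (Rf u) := (js_conj φ (fun y => (h.conj y).symm) c).2 hcJ
  have hfin : ∀ x ∈ JS (Rf v), ∃ z : ℂ, (z : OnePoint ℂ) = φ x := by
    intro x hx
    have h1 : φ x ∈ JS (Rf u) := (js_conj φ (fun y => (h.conj y).symm) x).2 hx
    have h2 : φ x ≠ OnePoint.infty := by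
      intro h3
      rw [h3] at h1
      exact h1 h.ga.fi
    exact OnePoint.ne_infty_iff_exists.1 h2
  obtain ⟨c1, hc1⟩ := hfin c hcJ
  have hcr1 : IsCrit (Rf u) (c1 : OnePoint ℂ) := by
    rw [hc1]
    exact (isCrit_conj φ h.conj c).2 hc
  rw [← hc1] at hJ
  obtain ⟨δ0, hG⟩ := geo_cd h hcr1 hJ
  have hb1 : (pol u.2).eval c1 ≠ 0 := h.ga.bne hJ
  have hCr1 : Cr (pol u.1) (pol u.2) c1 := ⟨hb1, (Pool.Agent.H18.UP.crit_iff hG hb1).1 hcr1⟩
  obtain ⟨δ, η, ρ, hPS⟩ := ps_ga h.ga hG hJ hCr1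
  have hCU := cu_cd h hG
  -- the chart map
  obtain ⟨e, he⟩ : ∃ e : ℂ → OnePoint ℂ, e = fun w : ℂ => φ.symm (w : OnePoint ℂ) := ⟨_, rfl⟩
  have hea : ∀ w : ℂ, e w = φ.symm (w : OnePoint ℂ) := fun w => by rw [he]
  have hφe : ∀ w : ℂ, φ (e w) = (w : OnePoint ℂ) := fun w => by rw [hea, φ.apply_symm_apply]
  have hec : Continuous e := he ▸ φ.symm.continuous.comp OnePoint.continuous_coe
  have hei : Function.Injective e := fun x y hxy => by
    have h1 : (x : OnePoint ℂ) = (y : OnePoint ℂ) := by rw [← hφe, ← hφe, hxy]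
    exact OnePoint.coe_injective h1
  have heφ : ∀ (x : OnePoint ℂ) (z : ℂ), (z : OnePoint ℂ) = φ x → e z = x := fun x z hz => by
    rw [hea, hz, φ.symm_apply_apply]
  have heq : ∀ w ∈ {z : ℂ | (pol u.2).eval z ≠ 0}, Rf v (e w) = e (gg (pol u.1) (pol u.2) w) := by
    intro w hw
    have h1 := h.conj (e w)
    rw [hφe] at h1
    have h2 : Rf u (w : OnePoint ℂ) = ((gg (pol u.1) (pol u.2) w : ℂ) : OnePoint ℂ) := rat_coe_of_ne hw
    rw [h2] at h1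
    rw [hea (gg (pol u.1) (pol u.2) w), h1, φ.symm_apply_apply]
  have hPK : ∀ z : ℂ, z ∈ PJ (pol u.1) (pol u.2) (JC u) ↔ e z ∈ KK (Rf v) := by
    intro z
    rw [← ps_pj hCU z, ← hφe z]
    exact ps_conj hCU (e z)
  have hPJ := pj_sub hG
  obtain ⟨P, hP⟩ : ∃ P, P = PJ (pol u.1) (pol u.2) (JC u) := ⟨_, rfl⟩
  obtain ⟨C, hC⟩ : ∃ C, C = {c | c ∈ JC u ∧ Cr (pol u.1) (pol u.2) c} := ⟨_, rfl⟩
  obtain ⟨g, hg⟩ : ∃ g, g = gg (pol u.1) (pol u.2) := ⟨_, rfl⟩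
  have hx' := hx
  unfold FXl at hx'
  rw [← hP, ← hg] at hx'
  rw [← hP, ← hC, ← hg] at hPS
  rw [← hg] at heq
  have hPK' : ∀ z : ℂ, z ∈ P ↔ e z ∈ KK (Rf v) := fun z => by rw [hP]; exact hPK z
  have hPJ' : P ⊆ JC u := hP ▸ hPJ
  have hJU : ∀ z ∈ JC u, z ∈ {z : ℂ | (pol u.2).eval z ≠ 0} := fun z hz => h.ga.bne hz
  have hit : ∀ z ∈ JC u, ∀ n : ℕ, (Rf v)^[n] (e z) = e (g^[n] z) := by
    intro z hz n
    induction n with
    | zero => rfl
    | succ n ih =>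
      rw [Function.iterate_succ_apply', Function.iterate_succ_apply', ih, heq _ (hJU _ (Pool.Agent.H56.UD.J_it hPS n hz))]
  -- the bounds
  obtain ⟨R, hRb⟩ := (jc_comp h.ga).isBounded.exists_norm_le
  have hK1 := hCU.K1
  have hKp : 0 < K := by linarith
  have hM0 : 0 < 1 + R ^ 2 := by positivity
  have hb_up : ∀ z w : ℂ, chord (e z) (e w) ≤ K * ‖z - w‖ := by
    intro z w
    have h1 := (h.bil (e z) (e w)).2
    rw [hφe, hφe] at h1
    exact h1.trans (mul_le_mul_of_nonneg_left (ch_up z w) hKp.le)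
  have hb_lo : ∀ z ∈ JC u, ∀ w ∈ JC u, ‖z - w‖ ≤ (1 + R ^ 2) * K * chord (e z) (e w) := by
    intro z hz w hw
    have h1 := (h.bil (e z) (e w)).1
    rw [hφe, hφe] at h1
    have h2 := ch_lo (hRb z hz) (hRb w hw)
    calc ‖z - w‖ ≤ (1 + R ^ 2) * chord (z : OnePoint ℂ) (w : OnePoint ℂ) := h2
      _ ≤ (1 + R ^ 2) * (K * chord (e z) (e w)) := mul_le_mul_of_nonneg_left h1 hM0.le
      _ = _ := by ring
  have hQ : 0 < (1 + R ^ 2) * K := by positivity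
  obtain ⟨M, hM⟩ : ∃ M, M = e ⁻¹' S := ⟨_, rfl⟩
  have hMS : ∀ x : ℂ, x ∈ M ↔ e x ∈ S := fun x => by rw [hM]; rfl
  have hSJ : S ⊆ JS (Rf v) := hS.sub.trans hKJ
  have hSf : ∀ s ∈ S, ∃ x ∈ M, e x = s := by
    intro s hs
    obtain ⟨w, hw⟩ := hfin s (hSJ hs)
    have h1 := heφ s w hw
    exact ⟨w, (hMS w).2 (h1 ▸ hs), h1⟩
  have hMP : M ⊆ P := fun x hx => (hPK' x).2 (hS.sub ((hMS x).1 hx))
  have hMJ : M ⊆ JC u := hMP.trans hPJ'
  have hPM : ∀ x ∈ P, x ∉ M → g x ∉ M := by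
    intro x hx hxM hgx
    rw [hMS, ← heq x (hJU x (hPJ' hx))] at hgx
    exact hS.com (e x) ((hPK' x).1 hx) (fun h4 => hxM ((hMS x).2 h4)) hgx
  have hoff : IsClosed (P \ M) := by
    have h1 : P \ M = e ⁻¹' (KK (Rf v) \ S) := by
      ext x
      constructor
      · rintro ⟨h2, h3⟩
        exact ⟨(hPK' x).1 h2, fun h4 => h3 ((hMS x).2 h4)⟩
      · rintro ⟨h2, h3⟩
        exact ⟨(hPK' x).2 h2, fun h4 => h3 ((hMS x).1 h4)⟩
    rw [h1]
    exact hS.off.preimage hec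
  have hc1M : c1 ∈ M := by
    rw [hMS, heφ c c1 hc1]
    exact hc0S
  -- the typical point
  obtain ⟨E, X, hh, μ, b0, hX, hEM⟩ := hx' M (hM ▸ hS.cl.preimage hec) hMP (fun x hx => by
      rw [hMS, ← heq x (hJU x (hMJ hx))]
      exact hS.inv _ ((hMS x).1 hx)) hoff hPM ⟨c1, hc1M, hCr1⟩
  have hX' := hX δ
  obtain ⟨z, hzE, hzC⟩ : ∃ z ∈ E, z ∉ ⋃ c ∈ C, {z | z ∈ JC u ∧ ∃ n : ℕ, g^[n] z = c} := by
    by_contra hcon
    push Not at hcon
    have h1 : volume E ≤ volume (⋃ c ∈ C, {z | z ∈ JC u ∧ ∃ n : ℕ, g^[n] z = c}) := measure_mono hcon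
    rw [(hPS.Cf.countable.biUnion fun c _ => pre_cnt hPS c).measure_zero] at h1
    exact absurd hX'.Ep (not_lt.2 h1)
  have hzJ : z ∈ JC u := hX'.EJ hzE
  have hzn : ∀ n : ℕ, g^[n] z ∉ C := by
    intro n hn
    exact hzC (mem_biUnion hn ⟨hzJ, n, rfl⟩)
  have hMn : Mn g P M := by
    refine ⟨hM ▸ hS.cl.preimage hec, ?_, hMP, ?_, ?_, ?_⟩
    · obtain ⟨s, hs⟩ := hS.ne
      obtain ⟨x, hx, -⟩ := hSf s hs
      exact ⟨x, hx⟩
    · intro x hx
      rw [hMS, ← heq x (hJU x (hMJ hx))]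
      exact hS.inv _ ((hMS x).1 hx)
    · intro x hx y hy
      rw [Metric.mem_closure_iff]
      intro ε hε
      have h1 := mns_dense hcont hS ((hMS x).1 hx) ((hMS y).1 hy)
      have h2 : {w | chord (e y) w < ε / ((1 + R ^ 2) * K)} ∈ 𝓝 (e y) := by
        refine (Pool.Agent.H44.RC.ch_ball (e y) _).mem_nhds ?_
        show chord (e y) (e y) < _
        rw [chord_zero]
        positivity
      obtain ⟨_, h3, n, rfl⟩ := mem_closure_iff_nhds.1 h1 _ h2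
      have h4 : chord (e y) ((Rf v)^[n] (e x)) < ε / ((1 + R ^ 2) * K) := h3
      rw [hit x (hMJ hx) n] at h4
      refine ⟨g^[n] x, ⟨n, rfl⟩, ?_⟩
      rw [dist_eq_norm]
      refine (hb_lo y (hMJ hy) _ (Pool.Agent.H56.UD.J_it hPS n (hMJ hx))).trans_lt ?_
      rw [mul_comm]
      exact (lt_div_iff₀ hQ).1 h4
    · exact hoff
  have hMC : (M ∩ C).Nonempty := ⟨c1, hc1M, hC ▸ ⟨hMJ hc1M, hCr1⟩⟩
  -- the critical points
  have hCe : ∀ c ∈ C, IsCrit (Rf v) (e c) ∧ e c ∈ JS (Rf v) := by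
    intro c' h1
    rw [hC] at h1
    obtain ⟨h1, h2⟩ := h1
    have h3 : IsCrit (Rf u) (c' : OnePoint ℂ) := (Pool.Agent.H18.UP.crit_iff hG h2.1).2 h2.2
    rw [← hφe] at h3
    have h5 : φ (e c') ∈ JS (Rf u) := by rw [hφe]; exact h1
    exact ⟨(isCrit_conj φ h.conj _).1 h3, (js_conj φ (fun y => (h.conj y).symm) _).1 h5⟩
  have hCJ : C ⊆ JC u := hPS.CJ
  have hCP : C ⊆ P := by
    intro c' h1
    obtain ⟨h2, h3⟩ := hCe c' h1
    rw [hPK', ← hKc.closure_eq, mem_closure_iff_nhds]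
    intro W hW
    obtain ⟨n, hn, hn2⟩ := frequently_atTop.1 (hown (e c') h2 h3 W hW) 1
    exact ⟨_, hn2, subset_closure ⟨e c', h2, h3, n, hn, rfl⟩⟩
  have hrec : ∀ c ∈ C, ∀ ε : ℝ, 0 < ε → ∃ n : ℕ, 1 ≤ n ∧ ‖g^[n] c - c‖ < ε := by
    intro c' h1 ε hε
    obtain ⟨h2, h3⟩ := hCe c' h1
    have h4 : {w | chord (e c') w < ε / ((1 + R ^ 2) * K)} ∈ 𝓝 (e c') := by
      refine (Pool.Agent.H44.RC.ch_ball (e c') _).mem_nhds ?_
      show chord (e c') (e c') < _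
      rw [chord_zero]
      positivity
    obtain ⟨n, hn, hn2⟩ := frequently_atTop.1 (hown (e c') h2 h3 _ h4) 1
    have h5 : chord (e c') ((Rf v)^[n] (e c')) < ε / ((1 + R ^ 2) * K) := hn2
    rw [hit c' (hCJ h1) n] at h5
    refine ⟨n, hn, ?_⟩
    rw [norm_sub_rev]
    refine (hb_lo _ (hCJ h1) _ (Pool.Agent.H56.UD.J_it hPS n (hCJ h1))).trans_lt ?_
    rw [mul_comm]
    exact (lt_div_iff₀ hQ).1 h5
  have htdP : IsTotallyDisconnected P := by
    intro t ht htc x hx y hy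
    have h1 := htd (e '' t) (by
      rintro _ ⟨w, hw, rfl⟩
      exact (hPK' w).1 (ht hw)) (htc.image e hec.continuousOn) ⟨x, hx, rfl⟩ ⟨y, hy, rfl⟩
    exact hei h1
  -- the distance of the pieces
  obtain ⟨s0, hs0, hs1⟩ := Pool.Agent.H64.NC.ch_sep hS.cl hS.off (disjoint_left.2 fun x hx hx' => hx'.2 hx)
  obtain ⟨ε, hε, hcl⟩ := not_ac hAC
  obtain ⟨κ, hκ, r0, hr0, hup⟩ := hUP
  refine hR hPS hX' hMn hMC htdP hCP hPM hrec ⟨(1 + R ^ 2) * K * (K / κ), min r0 s0 * κ / K, by positivity, ?_⟩ ?_ z hzE ⟨hzn, ?_⟩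
  · -- ring
    intro x hx r hr hrr
    have h1 : K * r / κ < min r0 s0 := by
      rw [div_lt_iff₀ hκ]
      rw [lt_div_iff₀ hKp] at hrr
      linarith
    obtain ⟨y, hy, h2, h3⟩ := hup (e x) ((hPK' x).1 (hMP hx)) (K * r / κ) (by positivity) (h1.trans_le (min_le_left _ _))
    have hyS : y ∈ S := by
      by_contra hyS
      have h4 := hs1 (e x) ((hMS x).1 hx) y ⟨hy, hyS⟩
      have h5 := h1.trans_le (min_le_right r0 s0)
      linarith
    obtain ⟨w, hwM, rfl⟩ := hSf y hyS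
    refine ⟨w, hwM, ?_, ?_⟩
    · have h4 : κ * (K * r / κ) = K * r := by field_simp
      rw [h4] at h2
      have h5 := h2.trans (hb_up x w)
      rw [norm_sub_rev]
      exact le_of_mul_le_mul_left h5 hKp
    · have h4 := hb_lo x (hMJ hx) w (hMJ hwM)
      rw [norm_sub_rev]
      calc ‖x - w‖ ≤ (1 + R ^ 2) * K * chord (e x) (e w) := h4
        _ ≤ (1 + R ^ 2) * K * (K * r / κ) := mul_le_mul_of_nonneg_left h3.le (by positivity)
        _ = _ := by ring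
  · -- clusters
    refine ⟨ε / (K * ((1 + R ^ 2) * K)), by positivity, fun r₁ hr₁ => ?_⟩
    obtain ⟨r, hr, hrr, A, hAn, hAK, hAd, hAs⟩ := hcl (r₁ / ((1 + R ^ 2) * K)) (by positivity)
    refine ⟨(1 + R ^ 2) * K * r, by positivity, ?_, e ⁻¹' A, fun w hw => (hMS w).2 (hAK hw), ?_, ?_, ?_⟩
    · rw [lt_div_iff₀ (by positivity)] at hrr
      linarith
    · obtain ⟨a, ha⟩ := hAn
      obtain ⟨w, -, hw⟩ := hSf a (hAK ha)
      exact ⟨w, by show e w ∈ A; rw [hw]; exact ha⟩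
    · intro x hx y hy
      have h1 := hb_lo x (hMJ ((hMS x).2 (hAK hx))) y (hMJ ((hMS y).2 (hAK hy)))
      exact h1.trans (mul_le_mul_of_nonneg_left (hAd _ hx _ hy) (by positivity))
    · intro x hx y hy hyA
      have h1 := hAs _ hx _ ((hMS y).1 hy) hyA
      have h2 := h1.trans (hb_up x y)
      have h3 : ε / (K * ((1 + R ^ 2) * K)) * ((1 + R ^ 2) * K * r) = ε * r / K := by
        field_simp
      rw [h3, div_le_iff₀ hKp]
      linarith
  · -- the limit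
    intro ε' hε'
    obtain ⟨N, hN⟩ := hEM z hzE ε' hε'
    exact ⟨N, hN⟩

end Pool.Agent.H56.END
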