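import Pool.Agent.H78.UX.FA
import Pool.Agent.H15.TY.TwoC

/-!
# ROB => DIM, END: with at most one critical point in the Julia set the Julia set is not the sphere

`two_crit`: a rational map of degree `d ≥ 2` has two different critical points. `js_ne`: so if the Julia set is the sphere it contains
at least two critical points.

PROOF of `two_crit`. The Wronskian `W = A' B - A B'` (`ww`) is not `0` (`Wr`, H57/CP or `ww_ne`), its zeros outside the poles are the
critical points in the plane (`crit_iff` H18/UP/BAS needs `Geo`; general: H91/CS/ECRIT, H47/RJ/CRC, `crit_coe` H44/Fatou), counted with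
multiplicity there are `2 d - 2` critical points on the sphere; a critical point of local degree `k ≤ d` has multiplicity `k - 1 ≤ d - 1`,
so there are two. ALTERNATIVE: `Pool.Agent.H44.RG.two_crit`, or: if there is only one critical value `w` then the complement of `w` is
simply connected, its inverse branches are globally defined (`exists_crit`, H91/Fatou), so `f` is injective off the fibre of `w`.
-/

set_option autoImplicit false

open Filter Topology Polynomial Metric Set MeasureTheory

namespace Pool.Agent.H56.END

open Pool.Agent.H44.Fatou (rat rat_continuous)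
open Pool.Agent.H32.BT Pool.Agent.H79.Eul Pool.Agent.H79.Par Pool.Agent.H44.RC Pool.Agent.H47.NM Pool.Agent.H47.RJ

variable {d : ℕ}

theorem two_crit (hd : 2 ≤ d) {v : E d} (hcop : IsCoprime (pol v.1) (pol v.2))
    (hdeg : max (pol v.1).natDegree (pol v.2).natDegree = d) :
    ∃ c c' : OnePoint ℂ, c ≠ c' ∧ IsCrit (Rf v) c ∧ IsCrit (Rf v) c' :=
  Pool.Agent.H15.TY.two_crit_gen ⟨hd, hcop, hdeg⟩

theorem js_ne (hd : 2 ≤ d) {v : E d} (hcop : IsCoprime (pol v.1) (pol v.2))
    (hdeg : max (pol v.1).natDegree (pol v.2).natDegree = d)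
    (h1 : {c | IsCrit (Rf v) c ∧ c ∈ JS (Rf v)}.Subsingleton) : JS (Rf v) ≠ univ := by
  intro h2
  obtain ⟨c, c', hne, hc, hc'⟩ := two_crit hd hcop hdeg
  exact hne (h1 ⟨hc, h2 ▸ mem_univ c⟩ ⟨hc', h2 ▸ mem_univ c'⟩)

end Pool.Agent.H56.END
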