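import Pool.Agent.H56.UD.DN

/-!
# ROB => DIM, END: the typical point `z`

`om_P`: the orbit of a point of `E` tends to `P` (no cones). `pre_cnt`: the points of `J` which are mapped onto `c` are countably
many. `typ`: if `c` is in every nonempty closed subset of `P` which is mapped into itself then there is `z ∈ E`, not precritical,
whose orbit accumulates at `c`.
-/

set_option autoImplicit false

open Filter Topology Metric Set MeasureTheory

namespace Pool.Agent.H56.END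

open Pool.Agent.H56.UD

variable {f : ℂ → ℂ} {U J P Cr E : Set ℂ} {δ : ℝ} {η : ℂ → ℂ → ℂ} {ρ : ℝ} {X hh μ : ℂ → ℂ} {b0 : ℝ}

theorem om_P (h : PS f U J P Cr δ η ρ) (hX : FX f U J E δ X hh μ b0) {z : ℂ} (hz : z ∈ E) {ε : ℝ} (hε : 0 < ε) :
    ∀ᶠ n : ℕ in atTop, ∃ p ∈ P, ‖f^[n] z - p‖ < ε := by
  obtain ⟨a, ha, b, hb, hab⟩ := h.Jt
  have hab' : 0 < ‖a - b‖ := norm_pos_iff.2 (sub_ne_zero.2 hab)
  set δ' : ℝ := min (min ε δ) (‖a - b‖ / 2) with hδ'
  have hδ'0 : 0 < δ' := lt_min (lt_min hε h.hδ) (by linarith)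
  have hδ'ε : δ' ≤ ε := (min_le_left _ _).trans (min_le_left _ _)
  have hδ'δ : δ' ≤ δ := (min_le_left _ _).trans (min_le_right _ _)
  have hδ'a : δ' ≤ ‖a - b‖ / 2 := min_le_right _ _
  have hzJ : z ∈ J := hX.EJ hz
  have hKK := Pool.Agent.H80.AJ.one_le_KK
  have hKp := Pool.Agent.H80.AJ.KK_pos
  obtain ⟨ε1, hε1, hnc⟩ := nc h hX (δ' := δ' / 2) (M := 1 + Pool.Agent.H80.AJ.KK * δ') (by linarith)
  obtain ⟨N, hN⟩ := h.leo (ball z (δ' * ε1 / 32)) isOpen_ball ⟨z, mem_ball_self (by positivity), hzJ⟩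
  filter_upwards [eventually_ge_atTop N] with n hn
  by_contra hcon
  push Not at hcon
  have hyJ : f^[n] z ∈ J := J_it h n hzJ
  have hbT : ball (f^[n] z) δ' ⊆ thickening δ J := fun u hu =>
    mem_thickening_iff.2 ⟨_, hyJ, (mem_ball.1 hu).trans_le hδ'δ⟩
  have hbP : ∀ u ∈ ball (f^[n] z) δ', u ∉ P := fun u hu hP => by
    have h1 := hcon u hP
    have h2 := mem_ball.1 hu
    rw [dist_comm, dist_eq_norm] at h2
    linarith
  obtain ⟨G, hGd, hG0, hG1⟩ := br_ball h hbT hbP (J_dm h n hzJ) (mem_ball_self hδ'0)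
  obtain ⟨y, hy⟩ : ∃ y, y = f^[n] z := ⟨_, rfl⟩
  rw [← hy] at hyJ hbT hGd hG0 hG1
  have hGi : InjOn G (ball y δ') := by
    intro u hu u' hu' he
    rw [← (hG1 u hu).2, ← (hG1 u' hu').2, he]
  have hsub : ball y (δ' / 2) ⊆ ball y δ' := ball_subset_ball (by linarith)
  have hder : deriv G y ≠ 0 := by
    have h2 := der_lift h isOpen_ball hGd (H := fun u => u) hG1 (mem_ball_self hδ'0)
    have h3 : deriv (fun u : ℂ => u) y = 1 := deriv_id _
    rw [h3] at h2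
    intro h4
    rw [h4, mul_zero] at h2
    exact zero_ne_one h2
  have hσ : 0 < ‖deriv G y‖ := norm_pos_iff.2 hder
  have hy0 : y ∈ closedBall y (δ' / 2) := mem_closedBall_self (by linarith)
  have h1 := hnc z hz n y ‖deriv G y‖ G hyJ (hsub.trans hbT) hσ (hGd.mono hsub)
    (fun u hu => ⟨(hG1 u (hsub hu)).1, (hG1 u (hsub hu)).2, by
      have h4 := Pool.Agent.H80.AJ.distort_lip hδ'0 hGd hGi (w := u) (w' := y) (v := y)
        (ball_subset_closedBall hu) hy0 hy0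
      rw [hG0] at h4
      have h5 : ‖u - y‖ ≤ δ' := by
        have := mem_ball_iff_norm.1 hu
        linarith
      calc ‖G u - z‖ ≤ Pool.Agent.H80.AJ.KK * ‖deriv G y‖ * ‖u - y‖ := h4
        _ ≤ Pool.Agent.H80.AJ.KK * ‖deriv G y‖ * δ' := by gcongr
        _ ≤ (1 + Pool.Agent.H80.AJ.KK * δ') * ‖deriv G y‖ := by nlinarith⟩) (by nlinarith [mul_pos hKp hδ'0])
  have h2 := Pool.Agent.H80.AJ.univ_cover (by linarith : 0 < δ' / 2) (hGd.mono hsub) (hGi.mono hsub)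
  rw [hG0] at h2
  have h3 : ball z (δ' * ε1 / 32) ⊆ G '' ball y (δ' / 2) := by
    refine Subset.trans (ball_subset_ball ?_) h2
    have : δ' * ε1 ≤ δ' * ‖deriv G y‖ := by gcongr
    linarith
  have h4 : ∀ w ∈ J, w ∈ ball y (δ' / 2) := by
    intro w hw
    obtain ⟨x, hx, rfl⟩ := hN n hn hw
    obtain ⟨u, hu, hux⟩ := h3 hx.1
    rw [← hux, (hG1 u (hsub hu)).2]
    exact hu
  have h5 := mem_ball_iff_norm.1 (h4 a ha)
  have h6 := mem_ball_iff_norm.1 (h4 b hb)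
  have h7 : ‖a - b‖ ≤ ‖a - y‖ + ‖b - y‖ := by
    calc ‖a - b‖ = ‖(a - y) - (b - y)‖ := by congr 1; ring
      _ ≤ _ := norm_sub_le _ _
  linarith

/-- only countably many points of `J` are mapped onto `c` -/
theorem pre_cnt (h : PS f U J P Cr δ η ρ) (c : ℂ) : {z | z ∈ J ∧ ∃ n : ℕ, f^[n] z = c}.Countable := by
  have h0 : {z | z ∈ J ∧ ∃ n : ℕ, f^[n] z = c} = ⋃ n : ℕ, {z | z ∈ J ∧ f^[n] z = c} := by
    ext z
    simp only [mem_iUnion, Set.mem_ofPred_eq]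
    constructor
    · rintro ⟨h1, n, h2⟩
      exact ⟨n, h1, h2⟩
    · rintro ⟨n, h1, h2⟩
      exact ⟨h1, n, h2⟩
  rw [h0]
  refine countable_iUnion fun n => Set.Finite.countable ?_
  by_contra hinf
  obtain ⟨a, haJ, hacc⟩ := Set.Infinite.exists_accPt_of_subset_isCompact hinf h.Jc fun z hz => hz.1
  have haD : a ∈ dm f U J δ n := J_dm h n haJ
  have hAn : AnalyticAt ℂ (f^[n]) a := (dm_diff h n).analyticOnNhd (dm_open h n) a haD
  have hfr : ∃ᶠ w in 𝓝[≠] a, f^[n] w = c := by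
    rw [accPt_iff_frequently_nhdsNE] at hacc
    exact hacc.mono fun w hw => hw.2
  have hev : ∀ᶠ w in 𝓝 a, f^[n] w = c :=
    (hAn.frequently_eq_iff_eventually_eq analyticAt_const).1 hfr
  obtain ⟨r, hr, hb⟩ := Metric.eventually_nhds_iff_ball.1 hev
  obtain ⟨N, hN⟩ := h.leo (ball a r) isOpen_ball ⟨a, mem_ball_self hr, haJ⟩
  obtain ⟨x, hx, y, hy, hxy⟩ := h.Jt
  have key : ∀ w ∈ J, w = f^[N] c := by
    intro w hw
    obtain ⟨u, hu, rfl⟩ := hN (N + n) (by omega) hw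
    rw [Function.iterate_add_apply, hb u hu.1]
  exact hxy ((key x hx).trans (key y hy).symm)

theorem typ (h : PS f U J P Cr δ η ρ) (hX : FX f U J E δ X hh μ b0) {c : ℂ}
    (hc : ∀ L ⊆ P, IsClosed L → L.Nonempty → (∀ z ∈ L, f z ∈ L) → c ∈ L) :
    ∃ z ∈ E, (∀ n : ℕ, f^[n] z ≠ c) ∧ ∀ ε : ℝ, 0 < ε → ∀ n₀ : ℕ, ∃ n ≥ n₀, ‖f^[n] z - c‖ < ε := by
  obtain ⟨z, hz, hzn⟩ : ∃ z ∈ E, z ∉ {z | z ∈ J ∧ ∃ n : ℕ, f^[n] z = c} := by
    by_contra hcon
    push Not at hcon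
    have h1 : volume E ≤ volume {z | z ∈ J ∧ ∃ n : ℕ, f^[n] z = c} := measure_mono hcon
    rw [(pre_cnt h c).measure_zero] at h1
    exact absurd hX.Ep (not_lt.2 h1)
  have hzJ : z ∈ J := hX.EJ hz
  refine ⟨z, hz, fun n hn => hzn ⟨hzJ, n, hn⟩, ?_⟩
  set L : Set ℂ := {y | MapClusterPt y atTop fun n : ℕ => f^[n] z} with hL
  have hLc : IsClosed L := by
    exact isClosed_setOfPred_clusterPt
  have hLP : L ⊆ P := by
    intro y hy
    rw [← h.Pc.closure_eq, Metric.mem_closure_iff]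
    intro ε hε
    have h1 := om_P h hX hz (half_pos hε)
    have h2 : ∃ᶠ n : ℕ in atTop, ‖f^[n] z - y‖ < ε / 2 := by
      have := (mapClusterPt_iff_frequently.1 hy) (ball y (ε / 2)) (ball_mem_nhds _ (half_pos hε))
      exact this.mono fun n hn => mem_ball_iff_norm.1 hn
    obtain ⟨n, h3, p, hp, h4⟩ := (h2.and_eventually h1).exists
    refine ⟨p, hp, ?_⟩
    rw [dist_eq_norm]
    calc ‖y - p‖ = ‖(f^[n] z - p) - (f^[n] z - y)‖ := by congr 1; ring
      _ ≤ ‖f^[n] z - p‖ + ‖f^[n] z - y‖ := norm_sub_le _ _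
      _ < ε := by linarith
  have hLn : L.Nonempty := by
    obtain ⟨y, -, hy⟩ := h.Jc.exists_mapClusterPt_of_frequently (l := atTop) (f := fun n : ℕ => f^[n] z)
      (Filter.Eventually.frequently (Eventually.of_forall fun n => J_it h n hzJ))
    exact ⟨y, hy⟩
  have hLf : ∀ y ∈ L, f y ∈ L := by
    intro y hy
    have hyU : y ∈ U := h.JU (h.PJ (hLP hy))
    have hcont : ContinuousAt f y := (h.fd.differentiableAt (h.Uo.mem_nhds hyU)).continuousAt
    have h1 : MapClusterPt (f y) atTop fun n : ℕ => f (f^[n] z) := MapClusterPt.continuousAt_comp hcont hy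
    rw [hL]
    show MapClusterPt (f y) atTop fun n : ℕ => f^[n] z
    rw [mapClusterPt_iff_frequently] at h1 ⊢
    intro s hs
    have h2 := h1 s hs
    rw [frequently_atTop] at h2 ⊢
    intro a
    obtain ⟨b, hb, hb2⟩ := h2 a
    exact ⟨b + 1, by omega, by rw [Function.iterate_succ_apply']; exact hb2⟩
  have h1 := hc L hLP hLc hLn hLf
  intro ε hε n₀
  have h2 := (mapClusterPt_iff_frequently.1 h1) (ball c ε) (ball_mem_nhds _ hε)
  obtain ⟨n, hn, hn2⟩ := frequently_atTop.1 h2 n₀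
  exact ⟨n, hn, mem_ball_iff_norm.1 hn2⟩

end Pool.Agent.H56.END
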